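import Mathlib

set_option autoImplicit false

open scoped ComplexConjugate InnerProductSpace
open Module (finrank)

namespace Pool.Agent.helper75.LW

section

variable {V : Type*} [NormedAddCommGroup V] [InnerProductSpace ℂ V]

lemma norm_sq_add_orth {x y : V} (h : ⟪x, y⟫_ℂ = 0) : ‖x + y‖ ^ 2 = ‖x‖ ^ 2 + ‖y‖ ^ 2 := by
  have := norm_add_sq_eq_norm_sq_add_norm_sq_of_inner_eq_zero x y h
  rw [sq, sq, sq]; exact this

lemma inner_self_ofReal (x : V) : ⟪x, x⟫_ℂ = ((‖x‖ ^ 2 : ℝ) : ℂ) := by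
  rw [inner_self_eq_norm_sq_to_K]
  norm_cast

lemma norm_sq_four {x y z w : V} (h1 : ⟪x, y⟫_ℂ = 0) (h2 : ⟪x, z⟫_ℂ = 0) (h3 : ⟪x, w⟫_ℂ = 0)
    (h4 : ⟪y, z⟫_ℂ = 0) (h5 : ⟪y, w⟫_ℂ = 0) (h6 : ⟪z, w⟫_ℂ = 0) (a b c d : ℂ) :
    ‖a • x + b • y + c • z + d • w‖ ^ 2
      = ‖a‖ ^ 2 * ‖x‖ ^ 2 + ‖b‖ ^ 2 * ‖y‖ ^ 2 + ‖c‖ ^ 2 * ‖z‖ ^ 2 + ‖d‖ ^ 2 * ‖w‖ ^ 2 := by
  rw [norm_sq_add_orth (by simp [h3, h5, h6]), norm_sq_add_orth (by simp [h2, h4]),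
    norm_sq_add_orth (by simp [h1])]
  simp only [norm_smul, mul_pow]

/-- A conjugate linear map `J` with `J ^ 2 = - T` and `⟪J x, y⟫ = - ⟪J y, x⟫`. -/
structure Skew (T : V →ₗ[ℂ] V) (J : V → V) : Prop where
  add : ∀ x y, J (x + y) = J x + J y
  smul : ∀ (c : ℂ) (x), J (c • x) = conj c • J x
  sq : ∀ x, J (J x) = - T x
  anti : ∀ x y, ⟪J x, y⟫_ℂ = - ⟪J y, x⟫_ℂ

namespace Skew

variable {T : V →ₗ[ℂ] V} {J : V → V} (h : Skew T J)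
include h

lemma inner_self (x : V) : ⟪J x, x⟫_ℂ = 0 := by
  have := h.anti x x
  have h2 : (2 : ℂ) * ⟪J x, x⟫_ℂ = 0 := by linear_combination this
  simpa using h2

lemma inner_T_left (x y : V) : ⟪T x, y⟫_ℂ = ⟪J y, J x⟫_ℂ := by
  have h1 : T x = - J (J x) := by rw [h.sq, neg_neg]
  rw [h1, inner_neg_left, h.anti (J x) y, neg_neg]

lemma inner_T_right (x y : V) : ⟪x, T y⟫_ℂ = ⟪J y, J x⟫_ℂ := by
  rw [← inner_conj_symm, h.inner_T_left, inner_conj_symm]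

lemma isSymmetric : T.IsSymmetric := fun x y => by
  rw [h.inner_T_left, h.inner_T_right]

lemma T_J (x : V) : T (J x) = J (T x) := by
  have h1 : T x = - J (J x) := by rw [h.sq, neg_neg]
  have h2 : T (J x) = - J (J (J x)) := by rw [h.sq (J x), neg_neg]
  have h3 : ∀ y, J (-y) = - J y := by
    intro y
    have := h.smul (-1) y
    simpa using this
  rw [h2, h1, h3]

lemma norm_J_sq (x : V) : ((‖J x‖ ^ 2 : ℝ) : ℂ) = ⟪T x, x⟫_ℂ := by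
  rw [h.inner_T_left, inner_self_ofReal]

/-- eigenvectors -/
lemma norm_J_sq_of_eigen {x : V} {l : ℝ} (hx : T x = (l : ℂ) • x) : ‖J x‖ ^ 2 = l * ‖x‖ ^ 2 := by
  have h1 := h.norm_J_sq x
  rw [hx, inner_smul_left, Complex.conj_ofReal, inner_self_ofReal] at h1
  exact_mod_cast h1

end Skew

end

section

variable {V : Type*} [NormedAddCommGroup V] [InnerProductSpace ℂ V] [FiniteDimensional ℂ V]
variable {T : V →ₗ[ℂ] V} {J : V → V}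

lemma exists_comb (f : Fin 2 → ℂ) : ∃ a b : ℂ, (a ≠ 0 ∨ b ≠ 0) ∧ a * f 0 + b * f 1 = 0 := by
  by_cases h : f 0 = 0 ∧ f 1 = 0
  · exact ⟨1, 0, Or.inl one_ne_zero, by rw [h.1]; simp⟩
  · rw [not_and_or] at h
    refine ⟨f 1, - f 0, ?_, by ring⟩
    rcases h with h | h
    · right; exact neg_ne_zero.2 h
    · left; exact h

/-- first eigenvalue -/
theorem Skew.first (h : Skew T J) {N : ℕ} (hN : finrank ℂ V = N) (h0 : 0 < N)
    (L : V →ₗ[ℂ] ℂ) (c : ℝ) (hc : 0 ≤ c) (hL : ∀ v, L v = 0 → ‖J v‖ ^ 2 ≤ c * ‖v‖ ^ 2) :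
    h.isSymmetric.eigenvalues hN ⟨0, h0⟩ ≤ c := by
  obtain ⟨l, hl⟩ : ∃ l, l = h.isSymmetric.eigenvalues hN ⟨0, h0⟩ := ⟨_, rfl⟩
  obtain ⟨v, hv⟩ : ∃ v, v = h.isSymmetric.eigenvectorBasis hN ⟨0, h0⟩ := ⟨_, rfl⟩
  rw [← hl]
  rcases le_or_gt l 0 with hl0 | hl0
  · exact hl0.trans hc
  have hTv : T v = (l : ℂ) • v := by
    rw [hv, hl]; exact h.isSymmetric.apply_eigenvectorBasis hN ⟨0, h0⟩
  have hnv : ‖v‖ = 1 := by rw [hv]; exact (h.isSymmetric.eigenvectorBasis hN).norm_eq_one _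
  have hJv : ‖J v‖ ^ 2 = l := by rw [h.norm_J_sq_of_eigen hTv, hnv]; ring
  have hTJv : T (J v) = (l : ℂ) • J v := by
    rw [h.T_J, hTv, h.smul, Complex.conj_ofReal]
  obtain ⟨a, b, hab, hL0⟩ := exists_comb ![L v, L (J v)]
  simp only [Matrix.cons_val_zero, Matrix.cons_val_one] at hL0
  have hx : L (a • v + b • J v) = 0 := by
    rw [map_add, map_smul, map_smul, smul_eq_mul, smul_eq_mul]; exact hL0
  have hTx : T (a • v + b • J v) = (l : ℂ) • (a • v + b • J v) := by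
    rw [map_add, map_smul, map_smul, hTv, hTJv, smul_add, smul_comm a, smul_comm b]
  have horth : ⟪a • v, b • J v⟫_ℂ = 0 := by
    rw [inner_smul_left, inner_smul_right, ← inner_conj_symm, h.inner_self]
    simp
  have hnx : ‖a • v + b • J v‖ ^ 2 = ‖a‖ ^ 2 + ‖b‖ ^ 2 * l := by
    rw [norm_sq_add_orth horth, norm_smul, norm_smul, mul_pow, mul_pow, hJv, hnv]
    ring
  have hpos : 0 < ‖a • v + b • J v‖ ^ 2 := by
    rw [hnx]
    rcases hab with ha | hb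
    · have := norm_pos_iff.2 ha
      positivity
    · have := norm_pos_iff.2 hb
      positivity
  have h1 := hL _ hx
  rw [h.norm_J_sq_of_eigen hTx] at h1
  exact le_of_mul_le_mul_right h1 hpos

/-- third eigenvalue -/
theorem Skew.third (h : Skew T J) {N : ℕ} (hN : finrank ℂ V = N) (h2 : 2 < N)
    (L : V →ₗ[ℂ] (Fin 3 → ℂ)) (c : ℝ) (hc : 0 ≤ c)
    (hL : ∀ v, L v = 0 → ‖J v‖ ^ 2 ≤ c * ‖v‖ ^ 2) :
    h.isSymmetric.eigenvalues hN ⟨2, h2⟩ ≤ c := by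
  obtain ⟨lam, hlam⟩ : ∃ lam, lam = h.isSymmetric.eigenvalues hN := ⟨_, rfl⟩
  obtain ⟨e, he⟩ : ∃ e, e = h.isSymmetric.eigenvectorBasis hN := ⟨_, rfl⟩
  have hanti : Antitone lam := by rw [hlam]; exact h.isSymmetric.eigenvalues_antitone hN
  have hTe : ∀ i, T (e i) = (lam i : ℂ) • e i := by
    intro i
    rw [he, hlam]; exact h.isSymmetric.apply_eigenvectorBasis hN i
  rw [← hlam]
  obtain ⟨i0, hi0⟩ : ∃ i0 : Fin N, i0 = ⟨0, by omega⟩ := ⟨_, rfl⟩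
  obtain ⟨i1, hi1⟩ : ∃ i1 : Fin N, i1 = ⟨1, by omega⟩ := ⟨_, rfl⟩
  obtain ⟨i2, hi2⟩ : ∃ i2 : Fin N, i2 = ⟨2, h2⟩ := ⟨_, rfl⟩
  rw [← hi2]
  have h01 : i0 ≠ i1 := by rw [hi0, hi1]; simp [Fin.ext_iff]
  have h02 : i0 ≠ i2 := by rw [hi0, hi2]; simp [Fin.ext_iff]
  have h12 : i1 ≠ i2 := by rw [hi1, hi2]; simp [Fin.ext_iff]
  have hl21 : lam i2 ≤ lam i1 := hanti (by rw [hi1, hi2]; simp)
  have hl20 : lam i2 ≤ lam i0 := hanti (by rw [hi0, hi2]; simp)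
  rcases le_or_gt (lam i2) 0 with hl0 | hl0
  · exact hl0.trans hc
  have hl1 : 0 < lam i1 := hl0.trans_le hl21
  have hl00 : 0 < lam i0 := hl0.trans_le hl20
  have hee : ∀ i j, i ≠ j → ⟪e i, e j⟫_ℂ = 0 := fun i j hij => by
    rw [orthonormal_iff_ite.1 e.orthonormal i j, if_neg hij]
  have hen : ∀ i, ‖e i‖ = 1 := fun i => e.norm_eq_one i
  -- the four vectors
  obtain ⟨v, hv⟩ : ∃ v, v = e i0 := ⟨_, rfl⟩
  obtain ⟨w, hw⟩ : ∃ w, w = J v := ⟨_, rfl⟩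
  have hTv : T v = (lam i0 : ℂ) • v := by rw [hv]; exact hTe i0
  have hTw : T w = (lam i0 : ℂ) • w := by
    rw [hw, h.T_J, hTv, h.smul, Complex.conj_ofReal]
  have hnv : ‖v‖ ^ 2 = 1 := by rw [hv, hen]; simp
  have hnw : ‖w‖ ^ 2 = lam i0 := by rw [hw, h.norm_J_sq_of_eigen hTv, hnv]; ring
  obtain ⟨a, b, hab, hortho⟩ := exists_comb ![⟪w, e i1⟫_ℂ, ⟪w, e i2⟫_ℂ]
  simp only [Matrix.cons_val_zero, Matrix.cons_val_one] at hortho
  obtain ⟨u, hu⟩ : ∃ u, u = a • e i1 + b • e i2 := ⟨_, rfl⟩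
  have hwu : ⟪w, u⟫_ℂ = 0 := by
    rw [hu, inner_add_right, inner_smul_right, inner_smul_right]; exact hortho
  have hvu : ⟪v, u⟫_ℂ = 0 := by
    rw [hu, hv, inner_add_right, inner_smul_right, inner_smul_right, hee _ _ h01, hee _ _ h02]
    simp
  have hnu : ‖u‖ ^ 2 = ‖a‖ ^ 2 + ‖b‖ ^ 2 := by
    rw [hu, norm_sq_add_orth (by
      rw [inner_smul_left, inner_smul_right, hee _ _ h12]; simp), norm_smul, norm_smul, hen, hen]
    ring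
  have hTu : T u = (lam i1 : ℂ) • (a • e i1) + (lam i2 : ℂ) • (b • e i2) := by
    rw [hu, map_add, map_smul, map_smul, hTe, hTe, smul_comm a, smul_comm b]
  have hnJu : ‖J u‖ ^ 2 = lam i1 * ‖a‖ ^ 2 + lam i2 * ‖b‖ ^ 2 := by
    have h1 := h.norm_J_sq u
    rw [hTu, hu] at h1
    have h3 : ⟪(lam i1 : ℂ) • (a • e i1) + (lam i2 : ℂ) • (b • e i2), a • e i1 + b • e i2⟫_ℂ
        = ((lam i1 * ‖a‖ ^ 2 + lam i2 * ‖b‖ ^ 2 : ℝ) : ℂ) := by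
      simp only [inner_add_left, inner_add_right, inner_smul_left, inner_smul_right,
        hee _ _ h12, hee _ _ h12.symm, inner_self_eq_norm_sq_to_K, hen, Complex.conj_ofReal]
      have ha : conj a * a = ((‖a‖ ^ 2 : ℝ) : ℂ) := by
        rw [← Complex.normSq_eq_conj_mul_self, Complex.normSq_eq_norm_sq]
      have hb : conj b * b = ((‖b‖ ^ 2 : ℝ) : ℂ) := by
        rw [← Complex.normSq_eq_conj_mul_self, Complex.normSq_eq_norm_sq]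
      push_cast at ha hb ⊢
      linear_combination (lam i1 : ℂ) * ha + (lam i2 : ℂ) * hb
    rw [h3] at h1
    rw [hu]
    exact_mod_cast h1
  have hnTu : ‖T u‖ ^ 2 = lam i1 ^ 2 * ‖a‖ ^ 2 + lam i2 ^ 2 * ‖b‖ ^ 2 := by
    rw [hTu, norm_sq_add_orth (by
      simp only [inner_smul_left, inner_smul_right, hee _ _ h12]; simp)]
    simp only [norm_smul, hen, Complex.norm_real, Real.norm_eq_abs, mul_one, mul_pow, sq_abs]
  -- orthogonality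
  have hvw : ⟪v, w⟫_ℂ = 0 := by
    rw [← inner_conj_symm, hw, h.inner_self]; simp
  have hvJu : ⟪v, J u⟫_ℂ = 0 := by
    rw [← inner_conj_symm, h.anti u v, ← hw, hwu]; simp
  have hwJu : ⟪w, J u⟫_ℂ = 0 := by
    rw [hw, ← inner_conj_symm, ← h.inner_T_left, hTv, inner_smul_left, hvu]; simp
  have huJu : ⟪u, J u⟫_ℂ = 0 := by
    rw [← inner_conj_symm, h.inner_self]; simp
  have hwv : ⟪w, v⟫_ℂ = 0 := by rw [← inner_conj_symm, hvw]; simp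
  have hJuTu : ⟪J u, T u⟫_ℂ = 0 := by
    have : T u = - J (J u) := by rw [h.sq, neg_neg]
    rw [this, inner_neg_right, ← inner_conj_symm, h.inner_self]; simp
  have hvTu : ⟪v, T u⟫_ℂ = 0 := by
    rw [← h.isSymmetric v u, hTv, inner_smul_left, hvu]; simp
  have hwTu : ⟪w, T u⟫_ℂ = 0 := by
    rw [← h.isSymmetric w u, hTw, inner_smul_left, hwu]; simp
  -- kernel element
  let Φ : (Fin 4 → ℂ) →ₗ[ℂ] V :=
    (LinearMap.proj 0).smulRight v + (LinearMap.proj 1).smulRight w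
      + (LinearMap.proj 2).smulRight u + (LinearMap.proj 3).smulRight (J u)
  have hker : LinearMap.ker (L ∘ₗ Φ) ≠ ⊥ := by
    apply LinearMap.ker_ne_bot_of_finrank_lt
    simp
  obtain ⟨k, hk, hk0⟩ := (Submodule.ne_bot_iff _).1 hker
  have hΦ : Φ k = k 0 • v + k 1 • w + k 2 • u + k 3 • J u := rfl
  have hLk : L (k 0 • v + k 1 • w + k 2 • u + k 3 • J u) = 0 := by
    rw [← hΦ]; exact hk
  have hnx : ‖k 0 • v + k 1 • w + k 2 • u + k 3 • J u‖ ^ 2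
      = ‖k 0‖ ^ 2 * 1 + ‖k 1‖ ^ 2 * lam i0 + ‖k 2‖ ^ 2 * (‖a‖ ^ 2 + ‖b‖ ^ 2)
        + ‖k 3‖ ^ 2 * (lam i1 * ‖a‖ ^ 2 + lam i2 * ‖b‖ ^ 2) := by
    rw [norm_sq_four hvw hvu hvJu hwu hwJu huJu, hnv, hnw, hnu, hnJu]
  have hJx : J (k 0 • v + k 1 • w + k 2 • u + k 3 • J u)
      = conj (k 0) • w + (- (conj (k 1)) * lam i0) • v + conj (k 2) • J u + (- conj (k 3)) • T u := by
    rw [h.add, h.add, h.add, h.smul, h.smul, h.smul, h.smul, ← hw, h.sq u, hw, h.sq v, hTv]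
    module
  have hnJx : ‖J (k 0 • v + k 1 • w + k 2 • u + k 3 • J u)‖ ^ 2
      = ‖k 0‖ ^ 2 * lam i0 + ‖k 1‖ ^ 2 * lam i0 ^ 2
        + ‖k 2‖ ^ 2 * (lam i1 * ‖a‖ ^ 2 + lam i2 * ‖b‖ ^ 2)
        + ‖k 3‖ ^ 2 * (lam i1 ^ 2 * ‖a‖ ^ 2 + lam i2 ^ 2 * ‖b‖ ^ 2) := by
    rw [hJx, norm_sq_four hwv hwJu hwTu hvJu hvTu hJuTu, hnv, hnw, hnJu, hnTu]
    simp only [norm_mul, norm_neg, RCLike.norm_conj, Complex.norm_real, Real.norm_eq_abs, mul_pow,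
      sq_abs, mul_one]
  have h1 := hL _ hLk
  have hn : 0 < ‖a‖ ^ 2 + ‖b‖ ^ 2 := by
    rcases hab with ha | hb
    · have := norm_pos_iff.2 ha
      positivity
    · have := norm_pos_iff.2 hb
      positivity
  have hn3 : lam i2 * (‖a‖ ^ 2 + ‖b‖ ^ 2) ≤ lam i1 * ‖a‖ ^ 2 + lam i2 * ‖b‖ ^ 2 := by
    have := mul_le_mul_of_nonneg_right hl21 (sq_nonneg ‖a‖)
    linarith
  have hn3' : 0 < lam i1 * ‖a‖ ^ 2 + lam i2 * ‖b‖ ^ 2 := lt_of_lt_of_le (by positivity) hn3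
  have hn4 : lam i2 * (lam i1 * ‖a‖ ^ 2 + lam i2 * ‖b‖ ^ 2)
      ≤ lam i1 ^ 2 * ‖a‖ ^ 2 + lam i2 ^ 2 * ‖b‖ ^ 2 := by
    have h3 : lam i2 * lam i1 ≤ lam i1 ^ 2 := by
      rw [pow_two]; exact mul_le_mul_of_nonneg_right hl21 hl1.le
    have := mul_le_mul_of_nonneg_right h3 (sq_nonneg ‖a‖)
    nlinarith
  have hpos : 0 < ‖k 0 • v + k 1 • w + k 2 • u + k 3 • J u‖ ^ 2 := by
    rw [hnx]
    by_contra hcon
    push Not at hcon
    apply hk0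
    have p0 : 0 ≤ ‖k 0‖ ^ 2 * 1 := by positivity
    have p1 : 0 ≤ ‖k 1‖ ^ 2 * lam i0 := by positivity
    have p2 : 0 ≤ ‖k 2‖ ^ 2 * (‖a‖ ^ 2 + ‖b‖ ^ 2) := by positivity
    have p3 : 0 ≤ ‖k 3‖ ^ 2 * (lam i1 * ‖a‖ ^ 2 + lam i2 * ‖b‖ ^ 2) := by positivity
    have z0 : ‖k 0‖ ^ 2 * 1 = 0 := by linarith
    have z1 : ‖k 1‖ ^ 2 * lam i0 = 0 := by linarith
    have z2 : ‖k 2‖ ^ 2 * (‖a‖ ^ 2 + ‖b‖ ^ 2) = 0 := by linarith
    have z3 : ‖k 3‖ ^ 2 * (lam i1 * ‖a‖ ^ 2 + lam i2 * ‖b‖ ^ 2) = 0 := by linarith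
    have y0 : k 0 = 0 := by simpa using z0
    have y1 : k 1 = 0 := by simpa [hl00.ne'] using z1
    have y2 : k 2 = 0 := by
      rcases mul_eq_zero.1 z2 with h | h
      · simpa using h
      · exact absurd h hn.ne'
    have y3 : k 3 = 0 := by
      rcases mul_eq_zero.1 z3 with h | h
      · simpa using h
      · exact absurd h hn3'.ne'
    ext i
    fin_cases i
    · exact y0
    · exact y1
    · exact y2
    · exact y3
  have hlow : lam i2 * ‖k 0 • v + k 1 • w + k 2 • u + k 3 • J u‖ ^ 2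
      ≤ ‖J (k 0 • v + k 1 • w + k 2 • u + k 3 • J u)‖ ^ 2 := by
    rw [hnx, hnJx]
    have q0 : ‖k 0‖ ^ 2 * lam i2 ≤ ‖k 0‖ ^ 2 * lam i0 :=
      mul_le_mul_of_nonneg_left hl20 (sq_nonneg _)
    have q1 : ‖k 1‖ ^ 2 * (lam i2 * lam i0) ≤ ‖k 1‖ ^ 2 * lam i0 ^ 2 := by
      apply mul_le_mul_of_nonneg_left _ (sq_nonneg _)
      rw [pow_two]; exact mul_le_mul_of_nonneg_right hl20 hl00.le
    have q2 := mul_le_mul_of_nonneg_left hn3 (sq_nonneg ‖k 2‖)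
    have q3 := mul_le_mul_of_nonneg_left hn4 (sq_nonneg ‖k 3‖)
    nlinarith
  exact le_of_mul_le_mul_right (hlow.trans h1) hpos

end

end Pool.Agent.helper75.LW
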