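import Mathlib

set_option autoImplicit false

open Matrix
open scoped ComplexConjugate

namespace Pool.Agent.helper75.LW

section basic

variable {m n p q : Type*} [Fintype m] [Fintype n] [Fintype p] [Fintype q]

/-- squared Frobenius norm -/
noncomputable def fn (M : Matrix m n ℂ) : ℝ := ∑ i, ∑ j, Complex.normSq (M i j)

lemma fn_nonneg (M : Matrix m n ℂ) : 0 ≤ fn M :=
  Finset.sum_nonneg fun _ _ => Finset.sum_nonneg fun _ _ => Complex.normSq_nonneg _

lemma fn_eq_trace (M : Matrix m n ℂ) : ((fn M : ℝ) : ℂ) = (Mᴴ * M).trace := by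
  simp only [fn, Matrix.trace, Matrix.diag, Matrix.mul_apply, Matrix.conjTranspose_apply,
    Complex.ofReal_sum, Complex.normSq_eq_conj_mul_self]
  rw [Finset.sum_comm]
  rfl

lemma fn_conjTranspose (M : Matrix m n ℂ) : fn Mᴴ = fn M := by
  simp only [fn, Matrix.conjTranspose_apply]
  rw [Finset.sum_comm]
  refine Finset.sum_congr rfl fun i _ => Finset.sum_congr rfl fun j _ => ?_
  exact Complex.normSq_conj _

lemma fn_fromBlocks (A : Matrix m p ℂ) (B : Matrix m q ℂ) (C : Matrix n p ℂ) (D : Matrix n q ℂ) :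
    fn (Matrix.fromBlocks A B C D) = fn A + fn B + fn C + fn D := by
  simp only [fn, Fintype.sum_sum_type, Matrix.fromBlocks_apply₁₁, Matrix.fromBlocks_apply₁₂,
    Matrix.fromBlocks_apply₂₁, Matrix.fromBlocks_apply₂₂, Finset.sum_add_distrib]
  ring

lemma fn_smul (c : ℂ) (M : Matrix m n ℂ) : fn (c • M) = Complex.normSq c * fn M := by
  simp only [fn, Matrix.smul_apply, smul_eq_mul, map_mul, Finset.mul_sum]

section norm

attribute [local instance] Matrix.frobeniusNormedAddCommGroup Matrix.frobeniusNormedSpace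

lemma fn_eq_norm_sq (M : Matrix m n ℂ) : fn M = ‖M‖ ^ 2 := by
  rw [Matrix.frobenius_norm_def, ← Real.sqrt_eq_rpow, Real.sq_sqrt]
  · simp only [fn]
    refine Finset.sum_congr rfl fun i _ => Finset.sum_congr rfl fun j _ => ?_
    rw [Complex.normSq_eq_norm_sq]
    norm_num
  · positivity

lemma fn_mul_le (A : Matrix m n ℂ) (B : Matrix n p ℂ) : fn (A * B) ≤ fn A * fn B := by
  rw [fn_eq_norm_sq, fn_eq_norm_sq, fn_eq_norm_sq, ← mul_pow]
  exact pow_le_pow_left₀ (norm_nonneg _) (Matrix.frobenius_norm_mul A B) 2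

end norm

lemma trace_conj_mul_le (P Q : Matrix m n ℂ) :
    Complex.normSq (Pᴴ * Q).trace ≤ fn P * fn Q := by
  have h1 : (Pᴴ * Q).trace = ∑ x : m × n, conj (P x.1 x.2) * Q x.1 x.2 := by
    simp only [Matrix.trace, Matrix.diag, Matrix.mul_apply, Matrix.conjTranspose_apply]
    rw [Finset.sum_comm, Fintype.sum_prod_type]
    rfl
  have h2 : ∀ M : Matrix m n ℂ, fn M = ∑ x : m × n, ‖M x.1 x.2‖ ^ 2 := by
    intro M
    simp only [fn, Fintype.sum_prod_type, Complex.normSq_eq_norm_sq]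
  rw [h1, h2, h2, Complex.normSq_eq_norm_sq]
  calc ‖∑ x : m × n, conj (P x.1 x.2) * Q x.1 x.2‖ ^ 2
      ≤ (∑ x : m × n, ‖P x.1 x.2‖ * ‖Q x.1 x.2‖) ^ 2 := by
        refine pow_le_pow_left₀ (norm_nonneg _) ?_ 2
        refine (norm_sum_le _ _).trans (Finset.sum_le_sum fun x _ => ?_)
        rw [norm_mul, RCLike.norm_conj]
    _ ≤ _ := Finset.sum_mul_sq_le_sq_mul_sq _ _ _

end basic

section identity

variable {ι : Type*} [Fintype ι] [DecidableEq ι]

lemma fn_comm_add_fn_anti (Z Y : Matrix ι ι ℂ) (d : ι → ℝ)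
    (hH : Zᴴ * Z + Z * Zᴴ = Matrix.diagonal (fun i => (d i : ℂ))) :
    fn (Z * Y - Y * Z) + fn (Zᴴ * Y + Y * Zᴴ) = ∑ i, ∑ j, (d i + d j) * Complex.normSq (Y i j) := by
  have key : ((fn (Z * Y - Y * Z) + fn (Zᴴ * Y + Y * Zᴴ) : ℝ) : ℂ)
      = (Yᴴ * (Zᴴ * Z + Z * Zᴴ) * Y).trace + (Y * (Zᴴ * Z + Z * Zᴴ) * Yᴴ).trace := by
    rw [Complex.ofReal_add, fn_eq_trace, fn_eq_trace]
    simp only [Matrix.conjTranspose_sub, Matrix.conjTranspose_add, Matrix.conjTranspose_mul,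
      Matrix.conjTranspose_conjTranspose, Matrix.sub_mul, Matrix.mul_sub, Matrix.add_mul,
      Matrix.mul_add, Matrix.trace_sub, Matrix.trace_add]
    have e1 : (Zᴴ * Yᴴ * (Z * Y)).trace = (Yᴴ * Z * (Y * Zᴴ)).trace := by
      rw [Matrix.trace_mul_comm (Yᴴ * Z) (Y * Zᴴ), Matrix.mul_assoc Y, Matrix.trace_mul_comm Y]
      simp only [Matrix.mul_assoc]
    have e2 : (Yᴴ * Zᴴ * (Y * Z)).trace = (Z * Yᴴ * (Zᴴ * Y)).trace := by
      rw [← Matrix.mul_assoc, Matrix.trace_mul_comm _ Z]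
      simp only [Matrix.mul_assoc]
    have e3 : (Zᴴ * Yᴴ * (Y * Z)).trace = (Y * (Z * Zᴴ) * Yᴴ).trace := by
      rw [Matrix.trace_mul_comm (Zᴴ * Yᴴ)]
      simp only [Matrix.mul_assoc]
    have e4 : (Z * Yᴴ * (Y * Zᴴ)).trace = (Y * (Zᴴ * Z) * Yᴴ).trace := by
      rw [Matrix.trace_mul_comm (Z * Yᴴ)]
      simp only [Matrix.mul_assoc]
    have e5 : (Yᴴ * Zᴴ * (Z * Y)).trace = (Yᴴ * (Zᴴ * Z) * Y).trace := by
      simp only [Matrix.mul_assoc]
    have e6 : (Yᴴ * Z * (Zᴴ * Y)).trace = (Yᴴ * (Z * Zᴴ) * Y).trace := by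
      simp only [Matrix.mul_assoc]
    rw [e1, e2, e3, e4, e5, e6]
    ring
  rw [hH] at key
  have k1 : (Yᴴ * Matrix.diagonal (fun i => (d i : ℂ)) * Y).trace
      = ∑ i, ∑ j, ((d i * Complex.normSq (Y i j) : ℝ) : ℂ) := by
    rw [Finset.sum_comm, Matrix.trace]
    refine Finset.sum_congr rfl fun i _ => ?_
    rw [Matrix.diag_apply, Matrix.mul_apply]
    refine Finset.sum_congr rfl fun j _ => ?_
    rw [Complex.ofReal_mul, Complex.normSq_eq_conj_mul_self, Matrix.mul_diagonal,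
      Matrix.conjTranspose_apply]
    simp only [Complex.star_def]
    ring
  have k2 : (Y * Matrix.diagonal (fun i => (d i : ℂ)) * Yᴴ).trace
      = ∑ i, ∑ j, ((d j * Complex.normSq (Y i j) : ℝ) : ℂ) := by
    rw [Matrix.trace]
    refine Finset.sum_congr rfl fun i _ => ?_
    rw [Matrix.diag_apply, Matrix.mul_apply]
    refine Finset.sum_congr rfl fun j _ => ?_
    rw [Complex.ofReal_mul, Complex.normSq_eq_conj_mul_self, Matrix.mul_diagonal,
      Matrix.conjTranspose_apply]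
    simp only [Complex.star_def]
    ring
  rw [k1, k2] at key
  have key2 : fn (Z * Y - Y * Z) + fn (Zᴴ * Y + Y * Zᴴ)
      = ∑ i, ∑ j, (d i * Complex.normSq (Y i j)) + ∑ i, ∑ j, (d j * Complex.normSq (Y i j)) := by
    exact_mod_cast key
  rw [key2]
  simp only [add_mul, Finset.sum_add_distrib]

omit [DecidableEq ι] in
/-- pairing with an anticommutator -/
lemma trace_anti (Z Y M : Matrix ι ι ℂ) :
    (Mᴴ * (Zᴴ * Y + Y * Zᴴ)).trace = ((Z * M + M * Z)ᴴ * Y).trace := by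
  simp only [Matrix.conjTranspose_add, Matrix.conjTranspose_mul, Matrix.mul_add, Matrix.add_mul,
    Matrix.trace_add]
  congr 1
  · simp only [Matrix.mul_assoc]
  · rw [Matrix.mul_assoc Zᴴ, Matrix.trace_mul_comm Zᴴ]
    simp only [Matrix.mul_assoc]

end identity

end Pool.Agent.helper75.LW
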