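import Mathlib
import Pool.Agent.helper75.LWBasic

set_option autoImplicit false

open Matrix
open scoped ComplexConjugate

namespace Pool.Agent.helper75.LW

/-- the scalar inequality at the end of the main estimate -/
lemma final_real (α o dd mm a l N q s cF : ℝ) (ho : 0 ≤ o) (hdd : 0 ≤ dd)
    (hmm : 0 ≤ mm) (ha : 0 ≤ a) (hN : 0 ≤ N)
    (hs : s = 2 * α + o)
    (hq2 : q ^ 2 ≤ (α + 2 * mm + o + dd) * N)
    (hsa : s * a ≤ q + (o + (3 * dd + 6 * mm)) * l)
    (hc1 : cF ≤ 2 * (o + (3 * dd + 6 * mm))) (hc2 : cF ≤ s / 2 + (o + (3 * dd + 6 * mm))) :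
    2 * s * a ^ 2 + cF * l ^ 2 ≤ (α + 2 * o + (3 * dd + 6 * mm)) * (2 * a ^ 2 + l ^ 2) + N := by
  obtain ⟨v, hv⟩ : ∃ v, v = 3 * dd + 6 * mm := ⟨_, rfl⟩
  have hv0 : 0 ≤ v := by rw [hv]; positivity
  rw [← hv] at hsa hc1 hc2 ⊢
  have hm : α + 2 * mm + o + dd = α + o + v / 3 := by rw [hv]; ring
  rw [hm] at hq2
  rcases le_or_gt α (o + v) with h | h
  · have h1 : 2 * s * a ^ 2 ≤ (α + 2 * o + v) * (2 * a ^ 2) := by
      have : 0 ≤ (α + 2 * o + v - s) * (2 * a ^ 2) := by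
        apply mul_nonneg _ (by positivity)
        rw [hs]; linarith
      nlinarith
    have h2 : cF * l ^ 2 ≤ (α + 2 * o + v) * l ^ 2 := by
      apply mul_le_mul_of_nonneg_right _ (by positivity)
      rw [hs] at hc2; linarith
    nlinarith
  · obtain ⟨δ, hδ⟩ : ∃ δ, δ = α - o - v := ⟨_, rfl⟩
    have hδ0 : 0 < δ := by rw [hδ]; linarith
    obtain ⟨m0, hm0⟩ : ∃ m0, m0 = α + o + v / 3 := ⟨_, rfl⟩
    rw [← hm0] at hq2
    have hm0' : 0 < m0 := by rw [hm0]; linarith
    obtain ⟨w, hw⟩ : ∃ w, w = δ + o := ⟨_, rfl⟩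
    have hw0 : 0 < w := by rw [hw]; linarith
    obtain ⟨t, ht⟩ : ∃ t, t = o + v := ⟨_, rfl⟩
    have ht0 : 0 ≤ t := by rw [ht]; linarith
    rw [← ht] at hsa
    -- main
    have key : 2 * δ * a ^ 2 ≤ w * l ^ 2 + N := by
      have e1 : s * a * (s * a) ≤ (q + t * l) * (q + t * l) :=
        mul_self_le_mul_self (mul_nonneg (by rw [hs]; linarith) ha) hsa
      have e2 : w * m0 * (q + t * l) ^ 2 ≤ (w * m0 + t ^ 2) * (q ^ 2 + m0 * w * l ^ 2) := by
        nlinarith [sq_nonneg (w * m0 * l - t * q)]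
      have e3 : (w * m0 + t ^ 2) * (q ^ 2 + m0 * w * l ^ 2)
          ≤ (w * m0 + t ^ 2) * (m0 * N + m0 * w * l ^ 2) := by
        apply mul_le_mul_of_nonneg_left _ (by positivity)
        linarith
      have e4 : w * m0 * (s * a * (s * a)) ≤ w * m0 * ((q + t * l) * (q + t * l)) :=
        mul_le_mul_of_nonneg_left e1 (by positivity)
      have e5 : m0 * (w * (s * a * (s * a))) ≤ m0 * ((w * m0 + t ^ 2) * (N + w * l ^ 2)) := by
        nlinarith
      have e6 : w * (s * a * (s * a)) ≤ (w * m0 + t ^ 2) * (N + w * l ^ 2) :=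
        le_of_mul_le_mul_left e5 hm0'
      have e7 : 2 * δ * (m0 * w + t ^ 2) ≤ s ^ 2 * w := by
        have f1 : s = 2 * δ + 3 * o + 2 * v := by rw [hs, hδ]; ring
        have f2 : m0 = δ + 2 * o + 4 / 3 * v := by rw [hm0, hδ]; ring
        rw [f1, f2, hw, ht]
        have g1 : 0 ≤ δ * o := by positivity
        have g2 : 0 ≤ δ * v := by positivity
        have g3 : 0 ≤ o * v := by positivity
        have g4 : 0 ≤ δ * δ := by positivity
        have g5 : 0 ≤ o * o := by positivity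
        have g6 : 0 ≤ v * v := by positivity
        have g7 : 0 ≤ (2 * δ + 3 * o + 2 * v) ^ 2 - 2 * δ * (δ + 2 * o + 4 / 3 * v)
            - 2 * (o + v) ^ 2 := by nlinarith
        have g8 : 2 * δ * ((δ + 2 * o + 4 / 3 * v) * (δ + o) + (o + v) ^ 2)
            = (δ + o) * (2 * δ * (δ + 2 * o + 4 / 3 * v) + 2 * (o + v) ^ 2)
              - 2 * o * (o + v) ^ 2 := by ring
        rw [g8]
        have g9 : 0 ≤ (δ + o) * ((2 * δ + 3 * o + 2 * v) ^ 2 - 2 * δ * (δ + 2 * o + 4 / 3 * v)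
            - 2 * (o + v) ^ 2) := mul_nonneg (by linarith) g7
        have g10 : 0 ≤ 2 * o * (o + v) ^ 2 := by positivity
        nlinarith
      have e8 : (w * m0 + t ^ 2) * (2 * δ * a ^ 2) ≤ (w * m0 + t ^ 2) * (w * l ^ 2 + N) := by
        have : 2 * δ * (m0 * w + t ^ 2) * a ^ 2 ≤ s ^ 2 * w * a ^ 2 :=
          mul_le_mul_of_nonneg_right e7 (by positivity)
        nlinarith
      exact le_of_mul_le_mul_left e8 (by positivity)
    have h2 : cF * l ^ 2 ≤ (2 * (o + v)) * l ^ 2 :=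
      mul_le_mul_of_nonneg_right hc1 (by positivity)
    have h3 : 2 * s * a ^ 2 = (α + 2 * o + v) * (2 * a ^ 2) + 2 * δ * a ^ 2 := by
      rw [hs, hδ]; ring
    have h4 : (α + 2 * o + v) * l ^ 2 = 2 * (o + v) * l ^ 2 + w * l ^ 2 := by
      rw [hw, hδ]; ring
    nlinarith

section diag

variable {ι : Type*} [Fintype ι] [DecidableEq ι]

lemma d_diag (Z : Matrix ι ι ℂ) (d : ι → ℝ)
    (hH : Zᴴ * Z + Z * Zᴴ = Matrix.diagonal (fun i => (d i : ℂ))) (i : ι) :
    d i = ∑ k, Complex.normSq (Z k i) + ∑ k, Complex.normSq (Z i k) := by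
  have h := congrFun (congrFun hH i) i
  rw [Matrix.diagonal_apply_eq, Matrix.add_apply, Matrix.mul_apply, Matrix.mul_apply] at h
  simp only [Matrix.conjTranspose_apply, Complex.star_def] at h
  have h1 : ∑ k, conj (Z k i) * Z k i = ((∑ k, Complex.normSq (Z k i) : ℝ) : ℂ) := by
    rw [Complex.ofReal_sum]
    exact Finset.sum_congr rfl fun k _ => by rw [Complex.normSq_eq_conj_mul_self]
  have h2 : ∑ k, Z i k * conj (Z i k) = ((∑ k, Complex.normSq (Z i k) : ℝ) : ℂ) := by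
    rw [Complex.ofReal_sum]
    exact Finset.sum_congr rfl fun k _ => by rw [Complex.normSq_eq_conj_mul_self, mul_comm]
  rw [h1, h2] at h
  exact_mod_cast h.symm

end diag

section blocks

variable {κ : Type*} [Fintype κ] [DecidableEq κ]

lemma row_le {m n : Type*} [Fintype m] [Fintype n] (M : Matrix m n ℂ) (i : m) :
    ∑ k, Complex.normSq (M i k) ≤ fn M := by
  unfold fn
  exact Finset.single_le_sum (f := fun i => ∑ k, Complex.normSq (M i k))
    (fun i _ => Finset.sum_nonneg fun _ _ => Complex.normSq_nonneg _) (Finset.mem_univ i)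

lemma col_le {m n : Type*} [Fintype m] [Fintype n] (M : Matrix m n ℂ) (j : n) :
    ∑ k, Complex.normSq (M k j) ≤ fn M := by
  unfold fn
  rw [Finset.sum_comm]
  exact Finset.single_le_sum (f := fun j => ∑ k, Complex.normSq (M k j))
    (fun i _ => Finset.sum_nonneg fun _ _ => Complex.normSq_nonneg _) (Finset.mem_univ j)

lemma fn_two (A : Matrix (Fin 2) (Fin 2) ℂ) : fn A = Complex.normSq (A 0 0) +
    Complex.normSq (A 0 1) + Complex.normSq (A 1 0) + Complex.normSq (A 1 1) := by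
  simp only [fn, Fin.sum_univ_two]
  ring

lemma normSq_of_trace_zero {a b : ℂ} (h : a + b = 0) : Complex.normSq a = Complex.normSq b := by
  have : a = -b := by linear_combination h
  rw [this, Complex.normSq_neg]

/-- diagonal entry of the `F` block after the shift by `μ` -/
lemma shift_bound (D : Matrix κ κ ℂ) (μ : ℂ) (j : κ) :
    ∑ k, Complex.normSq ((D - μ • (1 : Matrix κ κ ℂ)) k j)
      + ∑ k, Complex.normSq ((D - μ • (1 : Matrix κ κ ℂ)) j k)
      ≤ 3 * fn D + 6 * Complex.normSq μ := by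
  have h1 : ∀ k, Complex.normSq ((D - μ • (1 : Matrix κ κ ℂ)) k j)
      ≤ Complex.normSq (D k j) + if k = j then
          (1 / 2 * Complex.normSq (D j j) + 3 * Complex.normSq μ) else 0 := by
    intro k
    rw [Matrix.sub_apply, Matrix.smul_apply, Matrix.one_apply]
    split_ifs with hk
    · subst hk
      simp only [smul_eq_mul, mul_one]
      rw [Complex.normSq_apply, Complex.normSq_apply, Complex.normSq_apply, Complex.sub_re,
        Complex.sub_im]
      nlinarith [sq_nonneg ((D k k).re + 2 * μ.re), sq_nonneg ((D k k).im + 2 * μ.im)]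
    · simp
  have h2 : ∀ k, Complex.normSq ((D - μ • (1 : Matrix κ κ ℂ)) j k)
      ≤ Complex.normSq (D j k) + if k = j then
          (1 / 2 * Complex.normSq (D j j) + 3 * Complex.normSq μ) else 0 := by
    intro k
    rw [Matrix.sub_apply, Matrix.smul_apply, Matrix.one_apply]
    split_ifs with hk hk' hk'
    · subst hk
      simp only [smul_eq_mul, mul_one]
      rw [Complex.normSq_apply, Complex.normSq_apply, Complex.normSq_apply, Complex.sub_re,
        Complex.sub_im]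
      nlinarith [sq_nonneg ((D j j).re + 2 * μ.re), sq_nonneg ((D j j).im + 2 * μ.im)]
    · exact absurd hk.symm hk'
    · exact absurd hk'.symm hk
    · simp
  have h3 := Finset.sum_le_sum fun k (_ : k ∈ Finset.univ) => h1 k
  have h4 := Finset.sum_le_sum fun k (_ : k ∈ Finset.univ) => h2 k
  rw [Finset.sum_add_distrib, Finset.sum_ite_eq' Finset.univ j, if_pos (Finset.mem_univ j)] at h3 h4
  have h5 := row_le D j
  have h6 := col_le D j
  have h7 : Complex.normSq (D j j) ≤ fn D :=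
    (Finset.single_le_sum (f := fun k => Complex.normSq (D j k))
      (fun i _ => Complex.normSq_nonneg _) (Finset.mem_univ j)).trans h5
  linarith

omit [DecidableEq κ] in
/-- norm bound of the remainder, in terms of a pairing -/
lemma remainder_bound (B : Matrix (Fin 2) κ ℂ) (C : Matrix κ (Fin 2) ℂ) (D L : Matrix κ κ ℂ)
    (μ : ℂ) :
    ‖((Bᴴ * B + C * Cᴴ + Dᴴ * D + D * Dᴴ - (2 * μ) • Dᴴ)ᴴ * L).trace‖
      ≤ (fn B + fn C + (3 * fn D + 6 * Complex.normSq μ)) * Real.sqrt (fn L) := by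
  let _ := Matrix.frobeniusNormedAddCommGroup (m := κ) (n := κ) (α := ℂ)
  let _ := Matrix.frobeniusNormedAddCommGroup (m := Fin 2) (n := κ) (α := ℂ)
  let _ := Matrix.frobeniusNormedAddCommGroup (m := κ) (n := Fin 2) (α := ℂ)
  let _ := Matrix.frobeniusNormedSpace (R := ℂ) (m := κ) (n := κ) (α := ℂ)
  set R := Bᴴ * B + C * Cᴴ + Dᴴ * D + D * Dᴴ - (2 * μ) • Dᴴ with hR
  have h1 := trace_conj_mul_le R L
  have h2 : ‖(Rᴴ * L).trace‖ ≤ Real.sqrt (fn R) * Real.sqrt (fn L) := by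
    rw [← Real.sqrt_mul (fn_nonneg _)]
    apply Real.le_sqrt_of_sq_le
    rw [← Complex.normSq_eq_norm_sq]
    exact h1
  refine h2.trans (mul_le_mul_of_nonneg_right ?_ (Real.sqrt_nonneg _))
  have hsq : Real.sqrt (fn R) = ‖R‖ := by
    rw [fn_eq_norm_sq, Real.sqrt_sq (norm_nonneg _)]
  rw [hsq]
  have b1 : ‖Bᴴ * B‖ ≤ ‖B‖ ^ 2 := by
    refine (Matrix.frobenius_norm_mul _ _).trans ?_
    rw [Matrix.frobenius_norm_conjTranspose, sq]
  have b2 : ‖C * Cᴴ‖ ≤ ‖C‖ ^ 2 := by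
    refine (Matrix.frobenius_norm_mul _ _).trans ?_
    rw [Matrix.frobenius_norm_conjTranspose, sq]
  have b3 : ‖Dᴴ * D‖ ≤ ‖D‖ ^ 2 := by
    refine (Matrix.frobenius_norm_mul _ _).trans ?_
    rw [Matrix.frobenius_norm_conjTranspose, sq]
  have b4 : ‖D * Dᴴ‖ ≤ ‖D‖ ^ 2 := by
    refine (Matrix.frobenius_norm_mul _ _).trans ?_
    rw [Matrix.frobenius_norm_conjTranspose, sq]
  have b5 : ‖(2 * μ) • Dᴴ‖ ≤ 2 * ‖μ‖ * ‖D‖ := by
    rw [norm_smul, Matrix.frobenius_norm_conjTranspose, norm_mul]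
    simp
  have b6 : ‖R‖ ≤ ‖B‖ ^ 2 + ‖C‖ ^ 2 + ‖D‖ ^ 2 + ‖D‖ ^ 2 + 2 * ‖μ‖ * ‖D‖ := by
    rw [hR]
    refine (norm_sub_le _ _).trans (add_le_add ?_ b5)
    refine (norm_add_le _ _).trans (add_le_add ?_ b4)
    refine (norm_add_le _ _).trans (add_le_add ?_ b3)
    exact (norm_add_le _ _).trans (add_le_add b1 b2)
  refine b6.trans ?_
  rw [fn_eq_norm_sq, fn_eq_norm_sq, fn_eq_norm_sq, Complex.normSq_eq_norm_sq]
  nlinarith [sq_nonneg (‖μ‖ - ‖D‖), sq_nonneg (‖μ‖), norm_nonneg μ, norm_nonneg D]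

end blocks

end Pool.Agent.helper75.LW
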