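import Mathlib
import Pool.Agent.helper75.LWCore

set_option autoImplicit false

open Matrix
open scoped ComplexConjugate

namespace Pool.Agent.helper75.LW

lemma trace_fromBlocks' {m n : Type*} [Fintype m] [Fintype n] (A : Matrix m m ℂ)
    (B : Matrix m n ℂ) (C : Matrix n m ℂ) (D : Matrix n n ℂ) :
    (Matrix.fromBlocks A B C D).trace = A.trace + D.trace := by
  simp [Matrix.trace]

section blocks

variable {κ : Type*} [Fintype κ] [DecidableEq κ]

lemma d_inl (A : Matrix (Fin 2) (Fin 2) ℂ) (B : Matrix (Fin 2) κ ℂ) (C : Matrix κ (Fin 2) ℂ)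
    (W : Matrix κ κ ℂ) (d : Fin 2 ⊕ κ → ℝ)
    (hH : (Matrix.fromBlocks A B C W)ᴴ * Matrix.fromBlocks A B C W
      + Matrix.fromBlocks A B C W * (Matrix.fromBlocks A B C W)ᴴ
      = Matrix.diagonal (fun i => (d i : ℂ))) (i : Fin 2) :
    d (Sum.inl i) = (∑ k, Complex.normSq (A k i) + ∑ k, Complex.normSq (A i k))
      + (∑ k, Complex.normSq (C k i) + ∑ k, Complex.normSq (B i k)) := by
  rw [d_diag _ d hH]
  simp only [Fintype.sum_sum_type, Matrix.fromBlocks_apply₁₁, Matrix.fromBlocks_apply₁₂,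
    Matrix.fromBlocks_apply₂₁]
  ring

lemma d_inr (A : Matrix (Fin 2) (Fin 2) ℂ) (B : Matrix (Fin 2) κ ℂ) (C : Matrix κ (Fin 2) ℂ)
    (W : Matrix κ κ ℂ) (d : Fin 2 ⊕ κ → ℝ)
    (hH : (Matrix.fromBlocks A B C W)ᴴ * Matrix.fromBlocks A B C W
      + Matrix.fromBlocks A B C W * (Matrix.fromBlocks A B C W)ᴴ
      = Matrix.diagonal (fun i => (d i : ℂ))) (j : κ) :
    d (Sum.inr j) = (∑ k, Complex.normSq (B k j) + ∑ k, Complex.normSq (C j k))
      + (∑ k, Complex.normSq (W k j) + ∑ k, Complex.normSq (W j k)) := by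
  rw [d_diag _ d hH]
  simp only [Fintype.sum_sum_type, Matrix.fromBlocks_apply₂₂, Matrix.fromBlocks_apply₁₂,
    Matrix.fromBlocks_apply₂₁]
  ring

lemma block22 (A : Matrix (Fin 2) (Fin 2) ℂ) (B : Matrix (Fin 2) κ ℂ) (C : Matrix κ (Fin 2) ℂ)
    (W : Matrix κ κ ℂ) (d : Fin 2 ⊕ κ → ℝ)
    (hH : (Matrix.fromBlocks A B C W)ᴴ * Matrix.fromBlocks A B C W
      + Matrix.fromBlocks A B C W * (Matrix.fromBlocks A B C W)ᴴ
      = Matrix.diagonal (fun i => (d i : ℂ))) :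
    Matrix.diagonal (fun j => (d (Sum.inr j) : ℂ)) = Bᴴ * B + Wᴴ * W + (C * Cᴴ + W * Wᴴ) := by
  rw [Matrix.fromBlocks_conjTranspose, Matrix.fromBlocks_multiply, Matrix.fromBlocks_multiply,
    Matrix.fromBlocks_add] at hH
  have h := congrArg Matrix.toBlocks₂₂ hH
  rw [Matrix.toBlocks_fromBlocks₂₂] at h
  rw [h]
  ext i j
  simp [Matrix.toBlocks₂₂, Matrix.diagonal_apply]

/-- The main estimate: on the space of the `Y` whose `E`-block is scalar. -/
theorem core_blocks (A : Matrix (Fin 2) (Fin 2) ℂ) (B : Matrix (Fin 2) κ ℂ)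
    (C : Matrix κ (Fin 2) ℂ) (W : Matrix κ κ ℂ) (μ : ℂ) (d : Fin 2 ⊕ κ → ℝ)
    (htr : A 0 0 + A 1 1 = 0)
    (hH : (Matrix.fromBlocks A B C W)ᴴ * Matrix.fromBlocks A B C W
      + Matrix.fromBlocks A B C W * (Matrix.fromBlocks A B C W)ᴴ
      = Matrix.diagonal (fun i => (d i : ℂ)))
    (hd : ∀ i j, d (Sum.inr j) ≤ d (Sum.inl i))
    (y : ℂ) (P : Matrix (Fin 2) κ ℂ) (Q : Matrix κ (Fin 2) ℂ) (L : Matrix κ κ ℂ) :
    fn (Matrix.fromBlocks A B C W * Matrix.fromBlocks (y • 1) P Q L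
        - Matrix.fromBlocks (y • 1) P Q L * Matrix.fromBlocks A B C W)
      ≤ (3 * fn (Matrix.fromBlocks A B C W + μ • (1 : Matrix (Fin 2 ⊕ κ) (Fin 2 ⊕ κ) ℂ))
          - (d (Sum.inl 0) + d (Sum.inl 1)))
        * fn (Matrix.fromBlocks (y • (1 : Matrix (Fin 2) (Fin 2) ℂ)) P Q L) := by
  set Z := Matrix.fromBlocks A B C W with hZ
  set Y := Matrix.fromBlocks (y • (1 : Matrix (Fin 2) (Fin 2) ℂ)) P Q L with hY
  set D := W + μ • (1 : Matrix κ κ ℂ) with hD
  have hWD : W = D - μ • (1 : Matrix κ κ ℂ) := by rw [hD]; abel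
  set S : Matrix (Fin 2 ⊕ κ) (Fin 2 ⊕ κ) ℂ := Matrix.fromBlocks (-1) 0 0 1 with hS
  set M0 := Zᴴ + conj μ • S with hM0
  -- the numbers
  have hAA : Complex.normSq (A 0 0) = Complex.normSq (A 1 1) := normSq_of_trace_zero htr
  have hfA := fn_two A
  have hd0 := d_inl A B C W d hH 0
  have hd1 := d_inl A B C W d hH 1
  simp only [Fin.sum_univ_two] at hd0 hd1
  have hB2 : fn B = ∑ k, Complex.normSq (B 0 k) + ∑ k, Complex.normSq (B 1 k) := by
    simp only [fn, Fin.sum_univ_two]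
  have hC2 : fn C = ∑ k, Complex.normSq (C k 0) + ∑ k, Complex.normSq (C k 1) := by
    simp only [fn, Fin.sum_univ_two, Finset.sum_add_distrib]
  have hs : d (Sum.inl 0) + d (Sum.inl 1) = 2 * fn A + (fn B + fn C) := by
    rw [hd0, hd1, hB2, hC2, hfA]; ring
  have nn : ∀ {m n : Type} [Fintype m] (f : m → ℂ), 0 ≤ ∑ k, Complex.normSq (f k) :=
    fun f => Finset.sum_nonneg fun _ _ => Complex.normSq_nonneg _
  have hdE : ∀ i, d (Sum.inl i) ≤ fn A + (fn B + fn C) := by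
    intro i
    have h0 : 0 ≤ ∑ k, Complex.normSq (B 0 k) := Finset.sum_nonneg fun _ _ => Complex.normSq_nonneg _
    have h1 : 0 ≤ ∑ k, Complex.normSq (B 1 k) := Finset.sum_nonneg fun _ _ => Complex.normSq_nonneg _
    have h2 : 0 ≤ ∑ k, Complex.normSq (C k 0) := Finset.sum_nonneg fun _ _ => Complex.normSq_nonneg _
    have h3 : 0 ≤ ∑ k, Complex.normSq (C k 1) := Finset.sum_nonneg fun _ _ => Complex.normSq_nonneg _
    fin_cases i
    · show d (Sum.inl 0) ≤ _
      rw [hd0, hB2, hC2, hfA]; linarith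
    · show d (Sum.inl 1) ≤ _
      rw [hd1, hB2, hC2, hfA]; linarith
  have hdF : ∀ j, d (Sum.inr j) ≤ (fn B + fn C) + (3 * fn D + 6 * Complex.normSq μ) := by
    intro j
    rw [d_inr A B C W d hH j, hWD]
    have := shift_bound D μ j
    have h1 := col_le B j
    have h2 := row_le C j
    linarith
  -- norms
  have hfZ : fn (Z + μ • (1 : Matrix (Fin 2 ⊕ κ) (Fin 2 ⊕ κ) ℂ))
      = fn A + 2 * Complex.normSq μ + (fn B + fn C) + fn D := by
    rw [← Matrix.fromBlocks_one, Matrix.fromBlocks_smul, hZ, Matrix.fromBlocks_add,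
      fn_fromBlocks, smul_zero, smul_zero, add_zero, add_zero, ← hD]
    have : fn (A + μ • (1 : Matrix (Fin 2) (Fin 2) ℂ)) = fn A + 2 * Complex.normSq μ := by
      rw [fn_two, fn_two]
      have hA1 : A 1 1 = - A 0 0 := by linear_combination htr
      simp [hA1, Complex.normSq_apply]
      ring
    rw [this]; ring
  have hfM : fn M0 = fn A + 2 * Complex.normSq μ + (fn B + fn C) + fn D := by
    rw [hM0, hZ, hS, Matrix.fromBlocks_conjTranspose, Matrix.fromBlocks_smul,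
      Matrix.fromBlocks_add, fn_fromBlocks, smul_zero, smul_zero, add_zero, add_zero,
      fn_conjTranspose, fn_conjTranspose]
    have e1 : fn (Aᴴ + conj μ • (-1 : Matrix (Fin 2) (Fin 2) ℂ)) = fn A + 2 * Complex.normSq μ := by
      rw [fn_two, fn_two]
      have hA1 : A 1 1 = - A 0 0 := by linear_combination htr
      simp [hA1, Complex.normSq_apply]
      ring
    have e2 : fn (Wᴴ + conj μ • (1 : Matrix κ κ ℂ)) = fn D := by
      rw [← fn_conjTranspose D, hD]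
      congr 1
      rw [Matrix.conjTranspose_add, Matrix.conjTranspose_smul, Matrix.conjTranspose_one]
      rfl
    rw [e1, e2]; ring
  -- the sum
  have hsum := fn_comm_add_fn_anti Z Y d hH
  have hsplit : ∑ i, ∑ j, (d i + d j) * Complex.normSq (Y i j)
      = 2 * (d (Sum.inl 0) + d (Sum.inl 1)) * Complex.normSq y
        + (∑ i, ∑ j, (d (Sum.inl i) + d (Sum.inr j)) * Complex.normSq (P i j))
        + (∑ i, ∑ j, (d (Sum.inr i) + d (Sum.inl j)) * Complex.normSq (Q i j))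
        + (∑ i, ∑ j, (d (Sum.inr i) + d (Sum.inr j)) * Complex.normSq (L i j)) := by
    simp only [hY, Fintype.sum_sum_type, Matrix.fromBlocks_apply₁₁, Matrix.fromBlocks_apply₁₂,
      Matrix.fromBlocks_apply₂₁, Matrix.fromBlocks_apply₂₂, Finset.sum_add_distrib]
    simp [Fin.sum_univ_two, Matrix.one_apply]
    ring
  have hfY : fn Y = 2 * Complex.normSq y + fn P + fn Q + fn L := by
    rw [hY, fn_fromBlocks, fn_two]
    simp
    ring
  obtain ⟨V, hV⟩ : ∃ V, V = fn A + 2 * (fn B + fn C) + (3 * fn D + 6 * Complex.normSq μ) :=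
    ⟨_, rfl⟩
  have hP : ∑ i, ∑ j, (d (Sum.inl i) + d (Sum.inr j)) * Complex.normSq (P i j) ≤ V * fn P := by
    unfold fn
    rw [Finset.mul_sum]
    refine Finset.sum_le_sum fun i _ => ?_
    rw [Finset.mul_sum]
    refine Finset.sum_le_sum fun j _ => mul_le_mul_of_nonneg_right ?_ (Complex.normSq_nonneg _)
    have := hdE i
    have := hdF j
    rw [hV]; linarith
  have hQ : ∑ i, ∑ j, (d (Sum.inr i) + d (Sum.inl j)) * Complex.normSq (Q i j) ≤ V * fn Q := by
    unfold fn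
    rw [Finset.mul_sum]
    refine Finset.sum_le_sum fun i _ => ?_
    rw [Finset.mul_sum]
    refine Finset.sum_le_sum fun j _ => mul_le_mul_of_nonneg_right ?_ (Complex.normSq_nonneg _)
    have := hdE j
    have := hdF i
    rw [hV]; linarith
  obtain ⟨cF, hcF⟩ : ∃ cF, cF = min (2 * ((fn B + fn C) + (3 * fn D + 6 * Complex.normSq μ)))
      ((d (Sum.inl 0) + d (Sum.inl 1)) / 2 + ((fn B + fn C) + (3 * fn D + 6 * Complex.normSq μ))) :=
    ⟨_, rfl⟩
  have hL : ∑ i, ∑ j, (d (Sum.inr i) + d (Sum.inr j)) * Complex.normSq (L i j) ≤ cF * fn L := by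
    unfold fn
    rw [Finset.mul_sum]
    refine Finset.sum_le_sum fun i _ => ?_
    rw [Finset.mul_sum]
    refine Finset.sum_le_sum fun j _ => mul_le_mul_of_nonneg_right ?_ (Complex.normSq_nonneg _)
    have a1 := hdF i
    have a2 := hdF j
    have a3 := hd 0 i
    have a4 := hd 1 i
    rw [hcF]
    apply le_min <;> linarith
  -- the pairing
  have hN0 : Z * M0 + M0 * Z = Matrix.fromBlocks
      (Matrix.diagonal (fun i => (d (Sum.inl i) : ℂ)) - (2 * conj μ) • A) 0 0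
      (Matrix.diagonal (fun i => (d (Sum.inr i) : ℂ)) + (2 * conj μ) • W) := by
    have e1 : Z * M0 + M0 * Z = (Zᴴ * Z + Z * Zᴴ) + conj μ • (Z * S + S * Z) := by
      rw [hM0, Matrix.mul_add, Matrix.add_mul, Matrix.mul_smul, Matrix.smul_mul, smul_add]
      abel
    have e2 : Z * S + S * Z = Matrix.fromBlocks (-(2 : ℂ) • A) 0 0 ((2 : ℂ) • W) := by
      rw [hZ, hS, Matrix.fromBlocks_multiply, Matrix.fromBlocks_multiply, Matrix.fromBlocks_add]
      congr 1
      · ext i j; simp; ring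
      · ext i j; simp
      · ext i j; simp
      · ext i j; simp; ring
    have e3 : Matrix.diagonal (fun i => (d i : ℂ)) = Matrix.fromBlocks
        (Matrix.diagonal (fun i => (d (Sum.inl i) : ℂ))) 0 0
        (Matrix.diagonal (fun i => (d (Sum.inr i) : ℂ))) := by
      rw [Matrix.fromBlocks_diagonal]
      congr 1
      ext i
      cases i <;> rfl
    rw [e1, hH, e2, e3, Matrix.fromBlocks_smul, Matrix.fromBlocks_add]
    congr 1
    · ext i j; simp; ring
    · simp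
    · simp
    · ext i j; simp; ring
  have hR : Matrix.diagonal (fun i => (d (Sum.inr i) : ℂ)) + (2 * conj μ) • W
      = Bᴴ * B + C * Cᴴ + Dᴴ * D + D * Dᴴ - (2 * μ) • Dᴴ := by
    rw [block22 A B C W d hH, hWD]
    simp only [Matrix.conjTranspose_sub, Matrix.conjTranspose_smul, Matrix.conjTranspose_one,
      Matrix.sub_mul, Matrix.mul_sub, Matrix.smul_mul, Matrix.mul_smul, Matrix.one_mul,
      Matrix.mul_one, smul_sub, smul_smul, Complex.star_def]
    rw [mul_comm (conj μ) μ, mul_assoc 2 (conj μ) μ, mul_comm (conj μ) μ]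
    module
  obtain ⟨η, hη⟩ : ∃ η, η = ((Bᴴ * B + C * Cᴴ + Dᴴ * D + D * Dᴴ - (2 * μ) • Dᴴ)ᴴ * L).trace :=
    ⟨_, rfl⟩
  have hpair : (M0ᴴ * (Zᴴ * Y + Y * Zᴴ)).trace
      = ((d (Sum.inl 0) + d (Sum.inl 1) : ℝ) : ℂ) * y + η := by
    rw [trace_anti, hN0, hR, Matrix.fromBlocks_conjTranspose, hY, Matrix.fromBlocks_multiply,
      trace_fromBlocks', Matrix.conjTranspose_zero, Matrix.conjTranspose_zero,
      Matrix.zero_mul, Matrix.zero_mul, add_zero, zero_add, ← hη]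
    congr 1
    rw [Matrix.mul_smul, Matrix.mul_one, Matrix.trace_smul, Matrix.trace_conjTranspose,
      Matrix.trace_sub, Matrix.trace_smul, Matrix.trace_diagonal, Matrix.trace_fin_two, htr]
    simp [Fin.sum_univ_two, mul_comm]
  have hcs := trace_conj_mul_le M0 (Zᴴ * Y + Y * Zᴴ)
  rw [hpair, hfM] at hcs
  have hrem := remainder_bound B C D L μ
  rw [← hη] at hrem
  -- triangle inequality
  have hs0 : 0 ≤ d (Sum.inl 0) + d (Sum.inl 1) := by
    rw [hs]
    have := fn_nonneg A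
    have := fn_nonneg B
    have := fn_nonneg C
    linarith
  have htri : (d (Sum.inl 0) + d (Sum.inl 1)) * ‖y‖
      ≤ ‖((d (Sum.inl 0) + d (Sum.inl 1) : ℝ) : ℂ) * y + η‖
        + ((fn B + fn C) + (3 * fn D + 6 * Complex.normSq μ)) * Real.sqrt (fn L) := by
    have e : ‖((d (Sum.inl 0) + d (Sum.inl 1) : ℝ) : ℂ) * y‖
        = (d (Sum.inl 0) + d (Sum.inl 1)) * ‖y‖ := by
      rw [norm_mul, Complex.norm_real, Real.norm_of_nonneg hs0]
    rw [← e]
    calc ‖((d (Sum.inl 0) + d (Sum.inl 1) : ℝ) : ℂ) * y‖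
        = ‖(((d (Sum.inl 0) + d (Sum.inl 1) : ℝ) : ℂ) * y + η) - η‖ := by ring_nf
      _ ≤ ‖((d (Sum.inl 0) + d (Sum.inl 1) : ℝ) : ℂ) * y + η‖ + ‖η‖ := norm_sub_le _ _
      _ ≤ _ := by linarith
  have hfin := final_real (fn A) (fn B + fn C) (fn D) (Complex.normSq μ) ‖y‖
    (Real.sqrt (fn L)) (fn (Zᴴ * Y + Y * Zᴴ))
    ‖((d (Sum.inl 0) + d (Sum.inl 1) : ℝ) : ℂ) * y + η‖ (d (Sum.inl 0) + d (Sum.inl 1)) cF
    (add_nonneg (fn_nonneg _) (fn_nonneg _)) (fn_nonneg _) (Complex.normSq_nonneg _)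
    (norm_nonneg _) (fn_nonneg _) hs (by rw [← Complex.normSq_eq_norm_sq]; exact hcs) htri
    (by rw [hcF]; exact min_le_left _ _) (by rw [hcF]; exact min_le_right _ _)
  rw [Real.sq_sqrt (fn_nonneg _), ← Complex.normSq_eq_norm_sq, ← hV] at hfin
  have hVV : 3 * fn (Z + μ • (1 : Matrix (Fin 2 ⊕ κ) (Fin 2 ⊕ κ) ℂ))
      - (d (Sum.inl 0) + d (Sum.inl 1)) = V := by
    rw [hfZ, hs, hV]; ring
  rw [hVV, hfY]
  rw [hsplit] at hsum
  nlinarith

end blocks

end Pool.Agent.helper75.LW
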