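import Mathlib
import Pool.Agent.helper75.LWCore2

set_option autoImplicit false

open Matrix
open scoped ComplexConjugate

namespace Pool.Agent.helper75.LW

lemma small_param {a b : ℝ} (h : ∀ t : ℝ, 0 < t → t ≤ 1 → a ≤ b * t) : a ≤ 0 := by
  by_contra ha
  push Not at ha
  have hb : 0 < |b| + 1 := by positivity
  have h1 := h (min 1 (a / (2 * (|b| + 1)))) (lt_min one_pos (by positivity)) (min_le_left _ _)
  have h2 : b * min 1 (a / (2 * (|b| + 1))) ≤ (|b| + 1) * (a / (2 * (|b| + 1))) := by
    apply mul_le_mul (by linarith [le_abs_self b]) (min_le_right _ _) (le_min zero_le_one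
      (by positivity)) hb.le
  have h3 : (|b| + 1) * (a / (2 * (|b| + 1))) = a / 2 := by field_simp
  linarith

/-- the first and second order conditions, scalar form -/
lemma scalar_conditions (Δ : ℝ) (q d u v : ℂ)
    (h : ∀ (c : ℝ) (s : ℂ), c ^ 2 + Complex.normSq s = 1 →
      Complex.normSq s * Δ + 2 * ((c : ℂ) * s * q).re
        ≤ Complex.normSq ((Complex.normSq s : ℂ) * d + c * (s * u + conj s * v))) :
    q = 0 ∧ Δ ≤ 0 := by
  have h2 : ∀ (a b : ℝ) (w : ℂ), Complex.normSq w = 1 →
      (a ^ 2 + b ^ 2) * (b ^ 2 * Δ + 2 * a * b * (w * q).re)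
        ≤ b ^ 2 * Complex.normSq ((b : ℂ) * d + a * (w * u + conj w * v)) := by
    intro a b w hw
    rcases eq_or_lt_of_le (show 0 ≤ a ^ 2 + b ^ 2 by positivity) with h0 | h0
    · rw [← h0, zero_mul]
      exact mul_nonneg (sq_nonneg _) (Complex.normSq_nonneg _)
    · obtain ⟨r, hr⟩ : ∃ r, r = Real.sqrt (a ^ 2 + b ^ 2) := ⟨_, rfl⟩
      have hr2 : r ^ 2 = a ^ 2 + b ^ 2 := by rw [hr]; exact Real.sq_sqrt h0.le
      have hr0 : 0 < r := by rw [hr]; exact Real.sqrt_pos.2 h0
      have hs : Complex.normSq (((b / r : ℝ) : ℂ) * w) = (b / r) ^ 2 := by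
        rw [Complex.normSq_mul, hw, Complex.normSq_ofReal, mul_one, sq]
      have h3 := h (a / r) (((b / r : ℝ) : ℂ) * w) (by
        rw [hs, div_pow, div_pow, ← add_div, ← hr2, div_self (by positivity)])
      rw [hs] at h3
      have e1 : ((((a / r : ℝ) : ℂ)) * (((b / r : ℝ) : ℂ) * w) * q).re
          = a * b / r ^ 2 * (w * q).re := by
        have : (((a / r : ℝ) : ℂ)) * (((b / r : ℝ) : ℂ) * w) * q
            = ((a * b / r ^ 2 : ℝ) : ℂ) * (w * q) := by
          push_cast
          field_simp
        rw [this, Complex.re_ofReal_mul]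
      have e2 : (((b / r) ^ 2 : ℝ) : ℂ) * d + ((a / r : ℝ) : ℂ) * (((b / r : ℝ) : ℂ) * w * u
            + conj (((b / r : ℝ) : ℂ) * w) * v)
          = ((b / r ^ 2 : ℝ) : ℂ) * ((b : ℂ) * d + a * (w * u + conj w * v)) := by
        rw [map_mul, Complex.conj_ofReal]
        push_cast
        field_simp
      rw [e1, e2, Complex.normSq_mul, Complex.normSq_ofReal] at h3
      have h4 := mul_le_mul_of_nonneg_left h3 (show 0 ≤ (r ^ 2) ^ 2 by positivity)
      have e3 : (r ^ 2) ^ 2 * ((b / r) ^ 2 * Δ + 2 * (a * b / r ^ 2 * (w * q).re))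
          = (a ^ 2 + b ^ 2) * (b ^ 2 * Δ + 2 * a * b * (w * q).re) := by
        rw [← hr2]
        field_simp
      have e4 : (r ^ 2) ^ 2 * (b / r ^ 2 * (b / r ^ 2)
            * Complex.normSq ((b : ℂ) * d + a * (w * u + conj w * v)))
          = b ^ 2 * Complex.normSq ((b : ℂ) * d + a * (w * u + conj w * v)) := by
        field_simp
      rw [e3, e4] at h4
      exact h4
  -- bound of the right hand side
  have hb : ∀ (t : ℝ) (x y : ℂ), 0 < t → t ≤ 1 →
      Complex.normSq ((t : ℂ) * x + (1 : ℝ) * y) ≤ 2 * Complex.normSq x + 2 * Complex.normSq y := by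
    intro t x y ht ht1
    have : Complex.normSq ((t : ℂ) * x + (1 : ℝ) * y)
        ≤ 2 * Complex.normSq ((t : ℂ) * x) + 2 * Complex.normSq y := by
      rw [Complex.normSq_apply, Complex.normSq_apply, Complex.normSq_apply]
      simp only [Complex.add_re, Complex.add_im, Complex.ofReal_one, one_mul]
      nlinarith [sq_nonneg (((t : ℂ) * x).re - y.re), sq_nonneg (((t : ℂ) * x).im - y.im)]
    have h3 : Complex.normSq ((t : ℂ) * x) ≤ Complex.normSq x := by
      rw [Complex.normSq_mul, Complex.normSq_ofReal]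
      have := Complex.normSq_nonneg x
      have : t * t ≤ 1 := by nlinarith
      nlinarith
    linarith
  have hre : ∀ w : ℂ, Complex.normSq w = 1 → (w * q).re ≤ 0 := by
    intro w hw
    by_contra hneg
    push Not at hneg
    obtain ⟨p, hp⟩ : ∃ p, p = w * u + conj w * v := ⟨_, rfl⟩
    have h5 : 2 * (w * q).re ≤ 0 := by
      apply small_param (b := 2 * Complex.normSq d + 2 * Complex.normSq p + 2 * |Δ|)
      intro t ht ht1
      have h6 := h2 1 t w hw
      rw [← hp] at h6
      have h7 := hb t d p ht ht1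
      have h8 : t ^ 2 * Complex.normSq ((t : ℂ) * d + (1 : ℝ) * p)
          ≤ t ^ 2 * (2 * Complex.normSq d + 2 * Complex.normSq p) :=
        mul_le_mul_of_nonneg_left h7 (by positivity)
      have h9 : t * ((1 + t ^ 2) * (t * Δ + 2 * (w * q).re))
          ≤ t * (t * (2 * Complex.normSq d + 2 * Complex.normSq p)) := by nlinarith
      have h10 := le_of_mul_le_mul_left h9 ht
      have h11 : -((1 + t ^ 2) * t * Δ) ≤ 2 * t * |Δ| := by
        have := neg_abs_le Δ
        have h12 : (1 + t ^ 2) * t ≤ 2 * t := by nlinarith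
        have h13 : 0 ≤ (1 + t ^ 2) * t := by positivity
        have := abs_nonneg Δ
        nlinarith
      nlinarith [mul_pos (pow_pos ht 2) hneg]
    linarith
  have hq : q = 0 := by
    by_contra hq
    have hq' : 0 < ‖q‖ := norm_pos_iff.2 hq
    have h3 := hre (conj q / ‖q‖) (by
      rw [Complex.normSq_div, Complex.normSq_conj, Complex.normSq_ofReal,
        Complex.normSq_eq_norm_sq]
      field_simp)
    have h4 : conj q / ‖q‖ * q = ((‖q‖ : ℝ) : ℂ) := by
      rw [div_mul_eq_mul_div, ← Complex.normSq_eq_conj_mul_self, Complex.normSq_eq_norm_sq]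
      push_cast
      have : (‖q‖ : ℂ) ≠ 0 := by exact_mod_cast hq'.ne'
      field_simp
    rw [h4, Complex.ofReal_re] at h3
    linarith
  refine ⟨hq, ?_⟩
  subst hq
  have h3 : ∀ (a b : ℝ) (w : ℂ), Complex.normSq w = 1 → b ≠ 0 →
      (a ^ 2 + b ^ 2) * Δ ≤ Complex.normSq ((b : ℂ) * d + a * (w * u + conj w * v)) := by
    intro a b w hw hb0
    have h4 := h2 a b w hw
    simp only [mul_zero, Complex.zero_re, add_zero] at h4
    have hb2 : 0 < b ^ 2 := by positivity
    refine le_of_mul_le_mul_left ?_ hb2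
    nlinarith
  by_cases hd : d = 0
  · have h4 := h3 0 1 1 (by simp) one_ne_zero
    simpa [hd] using h4
  · obtain ⟨w0, hw0⟩ : ∃ w0, w0 = conj d * u - d * conj v := ⟨_, rfl⟩
    obtain ⟨w, hw, hwim⟩ : ∃ w : ℂ, Complex.normSq w = 1 ∧ (w * w0).im = 0 := by
      by_cases h0 : w0 = 0
      · exact ⟨1, by simp, by simp [h0]⟩
      · have hq' : 0 < ‖w0‖ := norm_pos_iff.2 h0
        refine ⟨conj w0 / ‖w0‖, ?_, ?_⟩
        · rw [Complex.normSq_div, Complex.normSq_conj, Complex.normSq_ofReal,
            Complex.normSq_eq_norm_sq]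
          field_simp
        · have h4 : conj w0 / ‖w0‖ * w0 = ((‖w0‖ : ℝ) : ℂ) := by
            rw [div_mul_eq_mul_div, ← Complex.normSq_eq_conj_mul_self, Complex.normSq_eq_norm_sq]
            push_cast
            have : (‖w0‖ : ℂ) ≠ 0 := by exact_mod_cast hq'.ne'
            field_simp
          rw [h4, Complex.ofReal_im]
    obtain ⟨p, hp⟩ : ∃ p, p = w * u + conj w * v := ⟨_, rfl⟩
    have him : (conj d * p).im = 0 := by
      have : (conj d * p).im = (w * w0).im := by
        rw [hp, hw0]
        simp only [Complex.mul_im, Complex.mul_re, Complex.add_im, Complex.add_re,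
          Complex.sub_im, Complex.sub_re, Complex.conj_re, Complex.conj_im]
        ring
      rw [this, hwim]
    obtain ⟨r, hr⟩ : ∃ r : ℝ, r = (conj d * p).re / Complex.normSq d := ⟨_, rfl⟩
    have hdn : Complex.normSq d ≠ 0 := by simpa using hd
    have hpr : p = r * d := by
      have e1 : conj d * p = ((conj d * p).re : ℂ) := by
        apply Complex.ext
        · simp
        · rw [him]; simp
      have e2 : (Complex.normSq d : ℂ) * p = d * (conj d * p) := by
        rw [Complex.normSq_eq_conj_mul_self]; ring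
      rw [e1] at e2
      have e3 : (Complex.normSq d : ℂ) ≠ 0 := by exact_mod_cast hdn
      rw [hr]
      push_cast
      rw [div_mul_eq_mul_div, eq_div_iff e3]
      linear_combination e2
    by_cases hr0 : r = 0
    · have hp0 : p = 0 := by rw [hpr, hr0]; simp
      apply small_param (b := Complex.normSq d)
      intro t ht ht1
      have h4 := h3 1 t w hw ht.ne'
      rw [← hp, hp0, mul_zero, add_zero, Complex.normSq_mul, Complex.normSq_ofReal] at h4
      have h5 := Complex.normSq_nonneg d
      by_contra hcon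
      push Not at hcon
      have h6 : 0 < Δ := lt_of_le_of_lt (by positivity) hcon
      nlinarith [mul_pos (mul_pos ht ht) h6, mul_nonneg (mul_nonneg ht.le (sub_nonneg.2 ht1)) h5]
    · have h4 := h3 1 (-r) w hw (neg_ne_zero.2 hr0)
      rw [← hp, hpr] at h4
      have e : ((-r : ℝ) : ℂ) * d + ((1 : ℝ) : ℂ) * (r * d) = 0 := by push_cast; ring
      rw [e, map_zero] at h4
      have h5 : 0 < (1 : ℝ) ^ 2 + (-r) ^ 2 := by positivity
      by_contra hcon
      push Not at hcon
      nlinarith [mul_pos h5 hcon]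

section givens

variable {ι : Type*} [Fintype ι] [DecidableEq ι]

/-- plane rotation -/
noncomputable def giv (p q : ι) (c : ℝ) (s : ℂ) : Matrix ι ι ℂ := Matrix.of fun a b =>
  if b = p then (c : ℂ) * (if a = p then 1 else 0) + s * (if a = q then 1 else 0)
  else if b = q then (- conj s) * (if a = p then 1 else 0) + (c : ℂ) * (if a = q then 1 else 0)
  else (if a = b then 1 else 0)

lemma giv_unitary (p q : ι) (hpq : p ≠ q) (c : ℝ) (s : ℂ) (h : c ^ 2 + Complex.normSq s = 1) :
    (giv p q c s)ᴴ * giv p q c s = 1 := by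
  have hc : (c : ℂ) * c + conj s * s = 1 := by
    rw [← Complex.normSq_eq_conj_mul_self]
    have : ((c ^ 2 + Complex.normSq s : ℝ) : ℂ) = 1 := by rw [h]; simp
    rw [← this]; push_cast; ring
  ext b b'
  rw [Matrix.mul_apply, Matrix.one_apply]
  simp only [Matrix.conjTranspose_apply, giv, Matrix.of_apply]
  by_cases hb : b = p
  · subst hb
    by_cases hb' : b' = b
    · subst hb'
      simp [hpq, hpq.symm, mul_add, add_mul, Finset.sum_add_distrib]
      linear_combination hc
    · by_cases hb'' : b' = q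
      · subst hb''
        simp [hpq, hpq.symm, mul_add, add_mul, Finset.sum_add_distrib]
        ring
      · have h1 : b ≠ b' := fun e => hb' e.symm
        simp [hb', hb'', h1]
  · by_cases hb2 : b = q
    · subst hb2
      by_cases hb' : b' = p
      · subst hb'
        simp [hpq, hpq.symm, mul_add, add_mul, Finset.sum_add_distrib]
        ring
      · by_cases hb'' : b' = b
        · subst hb''
          simp [hpq, hpq.symm, mul_add, add_mul, Finset.sum_add_distrib]
          linear_combination hc
        · have h1 : b ≠ b' := fun e => hb'' e.symm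
          simp [hb', hb'', h1, hb]
    · by_cases hb' : b' = p
      · subst hb'
        simp [hb, hb2]
      · by_cases hb'' : b' = q
        · subst hb''
          simp [hb, hb2]
        · simp [hb, hb2, hb', hb'', eq_comm]

lemma giv_apply_self (p q : ι) (c : ℝ) (s : ℂ) (M : Matrix ι ι ℂ) :
    ((giv p q c s)ᴴ * M * giv p q c s) p p
      = c * c * M p p + c * s * M p q + c * conj s * M q p + s * conj s * M q q := by
  rw [Matrix.mul_apply]
  simp only [Matrix.mul_apply, Matrix.conjTranspose_apply, giv, Matrix.of_apply, if_true]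
  simp [apply_ite (starRingEnd ℂ), mul_add, add_mul, Finset.sum_add_distrib]
  ring

lemma giv_apply_other (p q b : ι) (hb : b ≠ p) (hb' : b ≠ q) (c : ℝ) (s : ℂ)
    (M : Matrix ι ι ℂ) :
    ((giv p q c s)ᴴ * M * giv p q c s) b b = M b b := by
  rw [Matrix.mul_apply]
  simp only [Matrix.mul_apply, Matrix.conjTranspose_apply, giv, Matrix.of_apply, if_neg hb,
    if_neg hb']
  simp

end givens

end Pool.Agent.helper75.LW
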