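import Mathlib
import Pool.Agent.helper75.LWScalar

set_option autoImplicit false

open Matrix
open scoped ComplexConjugate

namespace Pool.Agent.helper75.LW

section H2

variable {ι : Type*} [Fintype ι] [DecidableEq ι]

/-- twice the hermitian square -/
noncomputable def H2 (M : Matrix ι ι ℂ) : Matrix ι ι ℂ := Mᴴ * M + M * Mᴴ

lemma H2_conj (U M : Matrix ι ι ℂ) (hU : Uᴴ * U = 1) : H2 (Uᴴ * M * U) = Uᴴ * H2 M * U := by
  have hU' : U * Uᴴ = 1 := mul_eq_one_comm.1 hU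
  unfold H2
  simp only [Matrix.conjTranspose_mul, Matrix.conjTranspose_conjTranspose]
  have e1 : Uᴴ * (Mᴴ * U) * (Uᴴ * M * U) = Uᴴ * (Mᴴ * M) * U := by
    calc Uᴴ * (Mᴴ * U) * (Uᴴ * M * U) = Uᴴ * Mᴴ * (U * Uᴴ) * M * U := by
          simp only [Matrix.mul_assoc]
      _ = _ := by rw [hU', Matrix.mul_one]; simp only [Matrix.mul_assoc]
  have e2 : Uᴴ * M * U * (Uᴴ * (Mᴴ * U)) = Uᴴ * (M * Mᴴ) * U := by
    calc Uᴴ * M * U * (Uᴴ * (Mᴴ * U)) = Uᴴ * M * (U * Uᴴ) * Mᴴ * U := by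
          simp only [Matrix.mul_assoc]
      _ = _ := by rw [hU', Matrix.mul_one]; simp only [Matrix.mul_assoc]
  rw [e1, e2, Matrix.mul_add, Matrix.add_mul]

omit [DecidableEq ι] in
lemma H2_isHermitian (M : Matrix ι ι ℂ) : (H2 M).IsHermitian := by
  unfold H2
  rw [Matrix.IsHermitian, Matrix.conjTranspose_add, Matrix.conjTranspose_mul,
    Matrix.conjTranspose_mul, Matrix.conjTranspose_conjTranspose]

lemma exists_diag (A : Matrix ι ι ℂ) (hA : A.IsHermitian) :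
    ∃ U : Matrix ι ι ℂ, Uᴴ * U = 1 ∧ ∃ e : ι → ℝ, Uᴴ * A * U = Matrix.diagonal (fun i => (e i : ℂ)) := by
  refine ⟨hA.eigenvectorUnitary, ?_, hA.eigenvalues, ?_⟩
  · exact Unitary.coe_star_mul_self hA.eigenvectorUnitary
  · have := hA.conjStarAlgAut_star_eigenvectorUnitary
    rw [Unitary.conjStarAlgAut_star_apply] at this
    exact this

lemma isCompact_unitaries : IsCompact {U : Matrix ι ι ℂ | Uᴴ * U = 1} := by
  have h1 : IsCompact (Set.univ.pi fun _ : ι => Set.univ.pi fun _ : ι => Metric.closedBall (0 : ℂ) 1) :=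
    isCompact_univ_pi fun _ => isCompact_univ_pi fun _ => isCompact_closedBall _ _
  refine h1.of_isClosed_subset ?_ ?_
  · apply isClosed_eq
    · exact (continuous_id.matrix_conjTranspose).matrix_mul continuous_id
    · exact continuous_const
  · intro U hU i _ j _
    rw [mem_closedBall_zero_iff]
    have h2 := congrFun (congrFun hU j) j
    rw [Matrix.mul_apply, Matrix.one_apply_eq] at h2
    have h3 : ∑ k, Complex.normSq (U k j) = 1 := by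
      have : ((∑ k, Complex.normSq (U k j) : ℝ) : ℂ) = 1 := by
        rw [← h2, Complex.ofReal_sum]
        exact Finset.sum_congr rfl fun k _ => by
          rw [Complex.normSq_eq_conj_mul_self, Matrix.conjTranspose_apply]; rfl
      exact_mod_cast this
    have h4 : Complex.normSq (U i j) ≤ 1 := by
      rw [← h3]
      exact Finset.single_le_sum (f := fun k => Complex.normSq (U k j))
        (fun _ _ => Complex.normSq_nonneg _) (Finset.mem_univ i)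
    rw [Complex.normSq_eq_norm_sq] at h4
    exact (sq_le_one_iff₀ (norm_nonneg _)).1 h4

end H2

section nf

variable {κ : Type*} [Fintype κ] [DecidableEq κ]

/-- the functional that is maximised -/
noncomputable def gE (M : Matrix (Fin 2 ⊕ κ) (Fin 2 ⊕ κ) ℂ) : ℝ :=
  ((H2 M).toBlocks₁₁.trace).re - Complex.normSq M.toBlocks₁₁.trace

lemma gE_shift (M : Matrix (Fin 2 ⊕ κ) (Fin 2 ⊕ κ) ℂ) (μ : ℂ) :
    gE (M - μ • (1 : Matrix (Fin 2 ⊕ κ) (Fin 2 ⊕ κ) ℂ)) = gE M := by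
  have e1 : H2 (M - μ • (1 : Matrix (Fin 2 ⊕ κ) (Fin 2 ⊕ κ) ℂ))
      = H2 M - (2 * μ) • Mᴴ - (2 * conj μ) • M + (2 * (μ * conj μ)) • 1 := by
    unfold H2
    simp only [Matrix.conjTranspose_sub, Matrix.conjTranspose_smul, Matrix.conjTranspose_one,
      Matrix.sub_mul, Matrix.mul_sub, Matrix.smul_mul, Matrix.mul_smul, Matrix.one_mul,
      Matrix.mul_one, smul_sub, smul_smul, Complex.star_def]
    rw [mul_comm (conj μ) μ]
    module
  unfold gE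
  rw [e1]
  simp only [Matrix.trace_fin_two, Matrix.toBlocks₁₁, Matrix.of_apply, Matrix.add_apply,
    Matrix.sub_apply, Matrix.smul_apply, Matrix.one_apply, Matrix.conjTranspose_apply,
    smul_eq_mul, if_true, mul_one, Complex.star_def]
  simp only [Complex.normSq_apply, Complex.add_re, Complex.sub_re, Complex.mul_re, Complex.add_im,
    Complex.sub_im, Complex.mul_im, Complex.conj_re, Complex.conj_im, Complex.re_ofNat,
    Complex.im_ofNat]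
  ring

omit [DecidableEq κ] in
lemma toBlocks_conj (M : Matrix (Fin 2 ⊕ κ) (Fin 2 ⊕ κ) ℂ) (V : Matrix (Fin 2) (Fin 2) ℂ)
    (V' : Matrix κ κ ℂ) :
    (Matrix.fromBlocks V 0 0 V')ᴴ * M * Matrix.fromBlocks V 0 0 V'
      = Matrix.fromBlocks (Vᴴ * M.toBlocks₁₁ * V) (Vᴴ * M.toBlocks₁₂ * V')
        (V'ᴴ * M.toBlocks₂₁ * V) (V'ᴴ * M.toBlocks₂₂ * V') := by
  conv_lhs => rw [← Matrix.fromBlocks_toBlocks M]
  rw [Matrix.fromBlocks_conjTranspose, Matrix.fromBlocks_multiply, Matrix.fromBlocks_multiply]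
  simp

lemma trace_conj_unitary {ι : Type*} [Fintype ι] [DecidableEq ι] (A V : Matrix ι ι ℂ)
    (hV : Vᴴ * V = 1) : (Vᴴ * A * V).trace = A.trace := by
  have hV' : V * Vᴴ = 1 := mul_eq_one_comm.1 hV
  rw [Matrix.trace_mul_comm, ← Matrix.mul_assoc, hV', Matrix.one_mul]

lemma gE_block_conj (M : Matrix (Fin 2 ⊕ κ) (Fin 2 ⊕ κ) ℂ) (V : Matrix (Fin 2) (Fin 2) ℂ)
    (V' : Matrix κ κ ℂ) (hV : Vᴴ * V = 1) (hV' : V'ᴴ * V' = 1) :
    gE ((Matrix.fromBlocks V 0 0 V')ᴴ * M * Matrix.fromBlocks V 0 0 V') = gE M := by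
  have hU : (Matrix.fromBlocks V 0 0 V')ᴴ * Matrix.fromBlocks V 0 0 V' = 1 := by
    rw [Matrix.fromBlocks_conjTranspose, Matrix.fromBlocks_multiply]
    simp [hV, hV']
  unfold gE
  rw [H2_conj _ _ hU, toBlocks_conj, toBlocks_conj, Matrix.toBlocks_fromBlocks₁₁,
    Matrix.toBlocks_fromBlocks₁₁, trace_conj_unitary _ _ hV, trace_conj_unitary _ _ hV]

omit [DecidableEq κ] in
lemma continuous_gE_conj (X : Matrix (Fin 2 ⊕ κ) (Fin 2 ⊕ κ) ℂ) :
    Continuous fun U : Matrix (Fin 2 ⊕ κ) (Fin 2 ⊕ κ) ℂ => gE (Uᴴ * X * U) := by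
  have h1 : Continuous fun U : Matrix (Fin 2 ⊕ κ) (Fin 2 ⊕ κ) ℂ => Uᴴ * X * U :=
    ((continuous_id.matrix_conjTranspose).matrix_mul continuous_const).matrix_mul continuous_id
  have h2 : Continuous (gE (κ := κ)) := by
    unfold gE H2
    simp only [Matrix.trace_fin_two, Matrix.toBlocks₁₁, Matrix.of_apply]
    have h3 : Continuous fun M : Matrix (Fin 2 ⊕ κ) (Fin 2 ⊕ κ) ℂ => Mᴴ * M + M * Mᴴ :=
      ((continuous_id.matrix_conjTranspose).matrix_mul continuous_id).add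
        (continuous_id.matrix_mul continuous_id.matrix_conjTranspose)
    refine Continuous.sub ?_ ?_
    · exact Complex.continuous_re.comp ((h3.matrix_elem _ _).add (h3.matrix_elem _ _))
    · exact Complex.continuous_normSq.comp
        ((continuous_id.matrix_elem _ _).add (continuous_id.matrix_elem _ _))
  exact h2.comp h1

/-- normal form -/
structure NF (Z : Matrix (Fin 2 ⊕ κ) (Fin 2 ⊕ κ) ℂ) (d : Fin 2 ⊕ κ → ℝ) : Prop where
  tr : Z (Sum.inl 0) (Sum.inl 0) + Z (Sum.inl 1) (Sum.inl 1) = 0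
  hH : Zᴴ * Z + Z * Zᴴ = Matrix.diagonal (fun i => (d i : ℂ))
  hd : ∀ i j, d (Sum.inr j) ≤ d (Sum.inl i)

/-- first and second order conditions at a maximiser -/
lemma max_conditions (Z : Matrix (Fin 2 ⊕ κ) (Fin 2 ⊕ κ) ℂ)
    (htr : Z (Sum.inl 0) (Sum.inl 0) + Z (Sum.inl 1) (Sum.inl 1) = 0)
    (hmax : ∀ R : Matrix (Fin 2 ⊕ κ) (Fin 2 ⊕ κ) ℂ, Rᴴ * R = 1 → gE (Rᴴ * Z * R) ≤ gE Z)
    (i : Fin 2) (j : κ) :
    H2 Z (Sum.inl i) (Sum.inr j) = 0 ∧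
      (H2 Z (Sum.inr j) (Sum.inr j)).re ≤ (H2 Z (Sum.inl i) (Sum.inl i)).re := by
  have hne : (Sum.inl i : Fin 2 ⊕ κ) ≠ Sum.inr j := by simp
  obtain ⟨i', hi', hsum⟩ : ∃ i' : Fin 2, i' ≠ i ∧ ∀ f : Fin 2 → ℂ, f 0 + f 1 = f i + f i' := by
    fin_cases i
    · exact ⟨1, by simp, fun f => rfl⟩
    · exact ⟨0, by simp, fun f => add_comm _ _⟩
  have htrace : ∀ M : Matrix (Fin 2 ⊕ κ) (Fin 2 ⊕ κ) ℂ, M.toBlocks₁₁.trace
      = M (Sum.inl i) (Sum.inl i) + M (Sum.inl i') (Sum.inl i') := by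
    intro M
    rw [Matrix.trace_fin_two]
    exact hsum fun a => M (Sum.inl a) (Sum.inl a)
  have hh := scalar_conditions
    ((H2 Z (Sum.inr j) (Sum.inr j)).re - (H2 Z (Sum.inl i) (Sum.inl i)).re)
    (H2 Z (Sum.inl i) (Sum.inr j)) (Z (Sum.inr j) (Sum.inr j) - Z (Sum.inl i) (Sum.inl i))
    (Z (Sum.inl i) (Sum.inr j)) (Z (Sum.inr j) (Sum.inl i)) ?_
  · exact ⟨hh.1, by linarith [hh.2]⟩
  intro c s hcs
  have h1 := hmax (giv (Sum.inl i) (Sum.inr j) c s) (giv_unitary _ _ hne c s hcs)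
  have hother : ∀ M : Matrix (Fin 2 ⊕ κ) (Fin 2 ⊕ κ) ℂ,
      ((giv (Sum.inl i) (Sum.inr j) c s)ᴴ * M * giv (Sum.inl i) (Sum.inr j) c s)
        (Sum.inl i') (Sum.inl i') = M (Sum.inl i') (Sum.inl i') := fun M =>
    giv_apply_other _ _ _ (by simpa using hi') (by simp) c s M
  unfold gE at h1
  rw [H2_conj _ _ (giv_unitary _ _ hne c s hcs), htrace, htrace, htrace, htrace,
    giv_apply_self, giv_apply_self, hother, hother] at h1
  have hherm : H2 Z (Sum.inr j) (Sum.inl i) = conj (H2 Z (Sum.inl i) (Sum.inr j)) := by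
    have := (H2_isHermitian Z).apply (Sum.inr j) (Sum.inl i)
    exact this.symm
  have htr2 : Z (Sum.inl i) (Sum.inl i) + Z (Sum.inl i') (Sum.inl i') = 0 := by
    rw [← hsum fun a => Z (Sum.inl a) (Sum.inl a)]
    exact htr
  have hZ' : Z (Sum.inl i') (Sum.inl i') = - Z (Sum.inl i) (Sum.inl i) := by
    linear_combination htr2
  rw [hherm, hZ'] at h1
  have hcc : (c : ℂ) * c = 1 - (Complex.normSq s : ℂ) := by
    have : ((c ^ 2 + Complex.normSq s : ℝ) : ℂ) = 1 := by rw [hcs]; simp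
    push_cast at this
    linear_combination this
  have hss : s * conj s = (Complex.normSq s : ℂ) := by
    rw [Complex.normSq_eq_conj_mul_self]; ring
  have hii : (H2 Z (Sum.inl i) (Sum.inl i)).im = 0 := by
    have := (H2_isHermitian Z).apply (Sum.inl i) (Sum.inl i)
    exact Complex.conj_eq_iff_im.1 this
  have hjj : (H2 Z (Sum.inr j) (Sum.inr j)).im = 0 := by
    have := (H2_isHermitian Z).apply (Sum.inr j) (Sum.inr j)
    exact Complex.conj_eq_iff_im.1 this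
  rw [hcc, hss] at h1
  have e1 : (1 - (Complex.normSq s : ℂ)) * Z (Sum.inl i) (Sum.inl i)
        + c * s * Z (Sum.inl i) (Sum.inr j) + c * conj s * Z (Sum.inr j) (Sum.inl i)
        + (Complex.normSq s : ℂ) * Z (Sum.inr j) (Sum.inr j) + -Z (Sum.inl i) (Sum.inl i)
      = (Complex.normSq s : ℂ) * (Z (Sum.inr j) (Sum.inr j) - Z (Sum.inl i) (Sum.inl i))
        + c * (s * Z (Sum.inl i) (Sum.inr j) + conj s * Z (Sum.inr j) (Sum.inl i)) := by ring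
  rw [e1] at h1
  have e2 : Z (Sum.inl i) (Sum.inl i) + -Z (Sum.inl i) (Sum.inl i) = 0 := by ring
  rw [e2, map_zero, sub_zero] at h1
  have e3 : ((1 - (Complex.normSq s : ℂ)) * H2 Z (Sum.inl i) (Sum.inl i)
        + c * s * H2 Z (Sum.inl i) (Sum.inr j) + c * conj s * conj (H2 Z (Sum.inl i) (Sum.inr j))
        + (Complex.normSq s : ℂ) * H2 Z (Sum.inr j) (Sum.inr j)
        + H2 Z (Sum.inl i') (Sum.inl i')).re
      = (H2 Z (Sum.inl i) (Sum.inl i) + H2 Z (Sum.inl i') (Sum.inl i')).re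
        + (Complex.normSq s * ((H2 Z (Sum.inr j) (Sum.inr j)).re
          - (H2 Z (Sum.inl i) (Sum.inl i)).re)
        + 2 * ((c : ℂ) * s * H2 Z (Sum.inl i) (Sum.inr j)).re) := by
    simp only [Complex.add_re, Complex.sub_re, Complex.mul_re, Complex.mul_im, Complex.conj_re,
      Complex.conj_im, Complex.ofReal_re, Complex.ofReal_im, Complex.one_re, Complex.one_im,
      Complex.sub_im, hii, hjj]
    ring
  rw [e3] at h1
  linarith

theorem exists_nf (X : Matrix (Fin 2 ⊕ κ) (Fin 2 ⊕ κ) ℂ) :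
    ∃ U : Matrix (Fin 2 ⊕ κ) (Fin 2 ⊕ κ) ℂ, Uᴴ * U = 1 ∧ ∃ (μ : ℂ) (d : Fin 2 ⊕ κ → ℝ),
      NF (Uᴴ * X * U - μ • (1 : Matrix (Fin 2 ⊕ κ) (Fin 2 ⊕ κ) ℂ)) d := by
  obtain ⟨U0, hU0, hmax0⟩ := (isCompact_unitaries (ι := Fin 2 ⊕ κ)).exists_isMaxOn
    ⟨1, by simp⟩ (continuous_gE_conj X).continuousOn
  rw [Set.mem_ofPred_eq] at hU0
  have hmax1 : ∀ R : Matrix (Fin 2 ⊕ κ) (Fin 2 ⊕ κ) ℂ, Rᴴ * R = 1 →
      gE (Rᴴ * X * R) ≤ gE (U0ᴴ * X * U0) := fun R hR => hmax0 hR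
  obtain ⟨Z1, hZ1⟩ : ∃ Z1, Z1 = U0ᴴ * X * U0 := ⟨_, rfl⟩
  obtain ⟨μ, hμ⟩ : ∃ μ, μ = Z1.toBlocks₁₁.trace / 2 := ⟨_, rfl⟩
  obtain ⟨Z2, hZ2⟩ : ∃ Z2, Z2 = Z1 - μ • (1 : Matrix (Fin 2 ⊕ κ) (Fin 2 ⊕ κ) ℂ) := ⟨_, rfl⟩
  have hh := H2_isHermitian Z2
  obtain ⟨V, hV, e, hVe⟩ := exists_diag (H2 Z2).toBlocks₁₁ (by
    ext a b
    exact hh.apply (Sum.inl a) (Sum.inl b))
  obtain ⟨V', hV', e', hVe'⟩ := exists_diag (H2 Z2).toBlocks₂₂ (by
    ext a b
    exact hh.apply (Sum.inr a) (Sum.inr b))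
  obtain ⟨T, hT⟩ : ∃ T : Matrix (Fin 2 ⊕ κ) (Fin 2 ⊕ κ) ℂ, T = Matrix.fromBlocks V 0 0 V' :=
    ⟨_, rfl⟩
  have hTT : Tᴴ * T = 1 := by
    rw [hT, Matrix.fromBlocks_conjTranspose, Matrix.fromBlocks_multiply]
    simp [hV, hV']
  have conj_shift : ∀ (R M : Matrix (Fin 2 ⊕ κ) (Fin 2 ⊕ κ) ℂ), Rᴴ * R = 1 →
      Rᴴ * (M - μ • (1 : Matrix (Fin 2 ⊕ κ) (Fin 2 ⊕ κ) ℂ)) * R
        = Rᴴ * M * R - μ • (1 : Matrix (Fin 2 ⊕ κ) (Fin 2 ⊕ κ) ℂ) := by
    intro R M hR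
    rw [Matrix.mul_sub, Matrix.sub_mul, Matrix.mul_smul, Matrix.smul_mul, Matrix.mul_one, hR]
  have hUT : (U0 * T)ᴴ * (U0 * T) = 1 := by
    rw [Matrix.conjTranspose_mul, Matrix.mul_assoc, ← Matrix.mul_assoc U0ᴴ, hU0, Matrix.one_mul,
      hTT]
  obtain ⟨Z, hZ⟩ : ∃ Z, Z = Tᴴ * Z2 * T := ⟨_, rfl⟩
  have hZeq : (U0 * T)ᴴ * X * (U0 * T) - μ • (1 : Matrix (Fin 2 ⊕ κ) (Fin 2 ⊕ κ) ℂ) = Z := by
    rw [hZ, hZ2, conj_shift T Z1 hTT, hZ1, Matrix.conjTranspose_mul]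
    simp only [Matrix.mul_assoc]
  have hgZ : gE Z = gE Z1 := by
    rw [hZ, hT, gE_block_conj _ _ _ hV hV', hZ2, gE_shift]
  have htr : Z (Sum.inl 0) (Sum.inl 0) + Z (Sum.inl 1) (Sum.inl 1) = 0 := by
    have h1 : Z.toBlocks₁₁.trace = 0 := by
      rw [hZ, hT, toBlocks_conj, Matrix.toBlocks_fromBlocks₁₁, trace_conj_unitary _ _ hV, hZ2]
      rw [Matrix.trace_fin_two] at hμ ⊢
      simp only [Matrix.toBlocks₁₁, Matrix.of_apply, Matrix.sub_apply, Matrix.smul_apply,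
        Matrix.one_apply_eq, smul_eq_mul, mul_one] at hμ ⊢
      rw [hμ]; ring
    rwa [Matrix.trace_fin_two] at h1
  have hmax : ∀ R : Matrix (Fin 2 ⊕ κ) (Fin 2 ⊕ κ) ℂ, Rᴴ * R = 1 → gE (Rᴴ * Z * R) ≤ gE Z := by
    intro R hR
    have h1 : (U0 * T * R)ᴴ * (U0 * T * R) = 1 := by
      rw [Matrix.conjTranspose_mul, Matrix.mul_assoc, ← Matrix.mul_assoc (U0 * T)ᴴ, hUT,
        Matrix.one_mul, hR]
    have h2 : Rᴴ * Z * R = (U0 * T * R)ᴴ * X * (U0 * T * R)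
        - μ • (1 : Matrix (Fin 2 ⊕ κ) (Fin 2 ⊕ κ) ℂ) := by
      rw [← hZeq, conj_shift R _ hR, Matrix.conjTranspose_mul (U0 * T) R]
      simp only [Matrix.mul_assoc]
    rw [h2, gE_shift, hgZ, hZ1]
    exact hmax1 _ h1
  have hcond := max_conditions Z htr hmax
  have hH2Z : H2 Z = Matrix.fromBlocks (Matrix.diagonal fun i => (e i : ℂ)) 0 0
      (Matrix.diagonal fun i => (e' i : ℂ)) := by
    have h1 : H2 Z = Matrix.fromBlocks (Vᴴ * (H2 Z2).toBlocks₁₁ * V)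
        (Vᴴ * (H2 Z2).toBlocks₁₂ * V') (V'ᴴ * (H2 Z2).toBlocks₂₁ * V)
        (V'ᴴ * (H2 Z2).toBlocks₂₂ * V') := by
      rw [hZ, H2_conj _ _ hTT, hT, toBlocks_conj]
    rw [hVe, hVe'] at h1
    have h12 : Vᴴ * (H2 Z2).toBlocks₁₂ * V' = 0 := by
      ext a b
      have := (hcond a b).1
      rw [h1] at this
      simpa using this
    have h21 : V'ᴴ * (H2 Z2).toBlocks₂₁ * V = 0 := by
      ext a b
      have := (hcond b a).1
      have h3 := (H2_isHermitian Z).apply (Sum.inr a) (Sum.inl b)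
      rw [this, star_zero] at h3
      rw [h1] at h3
      simpa using h3.symm
    rw [h12, h21] at h1
    exact h1
  refine ⟨U0 * T, hUT, μ, Sum.elim e e', ?_⟩
  rw [hZeq]
  refine ⟨htr, ?_, ?_⟩
  · have : Zᴴ * Z + Z * Zᴴ = H2 Z := rfl
    rw [this, hH2Z, Matrix.fromBlocks_diagonal]
    congr 1
    ext i
    cases i <;> rfl
  · intro i j
    have := (hcond i j).2
    rw [hH2Z] at this
    simpa using this

/-- First estimate: a codimension one space. -/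
theorem NF.core1 {Z : Matrix (Fin 2 ⊕ κ) (Fin 2 ⊕ κ) ℂ} {d : Fin 2 ⊕ κ → ℝ} (h : NF Z d) :
    ∃ i0 : Fin 2, ∀ Y : Matrix (Fin 2 ⊕ κ) (Fin 2 ⊕ κ) ℂ, Y (Sum.inl i0) (Sum.inl i0) = 0 →
      fn (Z * Y - Y * Z) ≤ (d (Sum.inl 0) + d (Sum.inl 1)) * fn Y := by
  have main : ∀ i0 i1 : Fin 2, (∀ f : Fin 2 → ℝ, f 0 + f 1 = f i0 + f i1) →
      (∀ i, i = i0 ∨ i = i1) → d (Sum.inl i1) ≤ d (Sum.inl i0) →
      ∀ Y : Matrix (Fin 2 ⊕ κ) (Fin 2 ⊕ κ) ℂ, Y (Sum.inl i0) (Sum.inl i0) = 0 →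
      fn (Z * Y - Y * Z) ≤ (d (Sum.inl 0) + d (Sum.inl 1)) * fn Y := by
    intro i0 i1 hsum hcases hle Y hY
    have h1 := fn_comm_add_fn_anti Z Y d h.hH
    have h2 := fn_nonneg (Zᴴ * Y + Y * Zᴴ)
    have hs := hsum fun a => d (Sum.inl a)
    have hle2 : ∀ i : Fin 2 ⊕ κ, i = Sum.inl i0 ∨ d i ≤ d (Sum.inl i1) := by
      intro i
      rcases i with i | j
      · rcases hcases i with hi | hi
        · left; rw [hi]
        · right; rw [hi]
      · right; exact h.hd i1 j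
    have h3 : ∑ i, ∑ j, (d i + d j) * Complex.normSq (Y i j)
        ≤ (d (Sum.inl 0) + d (Sum.inl 1)) * fn Y := by
      unfold fn
      rw [Finset.mul_sum]
      refine Finset.sum_le_sum fun i _ => ?_
      rw [Finset.mul_sum]
      refine Finset.sum_le_sum fun j _ => ?_
      rcases hle2 i with hi | hi
      · rcases hle2 j with hj | hj
        · rw [hi, hj, hY]; simp
        · refine mul_le_mul_of_nonneg_right ?_ (Complex.normSq_nonneg _)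
          rw [hi, hs]; linarith
      · rcases hle2 j with hj | hj
        · refine mul_le_mul_of_nonneg_right ?_ (Complex.normSq_nonneg _)
          rw [hj, hs]; linarith
        · refine mul_le_mul_of_nonneg_right ?_ (Complex.normSq_nonneg _)
          rw [hs]; linarith
    linarith
  rcases le_total (d (Sum.inl 1)) (d (Sum.inl 0)) with hle | hle
  · exact ⟨0, main 0 1 (fun f => rfl) (by intro i; fin_cases i <;> simp) hle⟩
  · exact ⟨1, main 1 0 (fun f => add_comm _ _) (by intro i; fin_cases i <;> simp) hle⟩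

/-- Second estimate: a codimension three space. -/
theorem NF.core2 {Z : Matrix (Fin 2 ⊕ κ) (Fin 2 ⊕ κ) ℂ} {d : Fin 2 ⊕ κ → ℝ} (h : NF Z d)
    (μ : ℂ) (Y : Matrix (Fin 2 ⊕ κ) (Fin 2 ⊕ κ) ℂ)
    (h01 : Y (Sum.inl 0) (Sum.inl 1) = 0) (h10 : Y (Sum.inl 1) (Sum.inl 0) = 0)
    (hy : Y (Sum.inl 0) (Sum.inl 0) - Y (Sum.inl 1) (Sum.inl 1) = 0) :
    fn (Z * Y - Y * Z)
      ≤ (3 * fn (Z + μ • (1 : Matrix (Fin 2 ⊕ κ) (Fin 2 ⊕ κ) ℂ))
          - (d (Sum.inl 0) + d (Sum.inl 1))) * fn Y := by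
  have hZ : Z = Matrix.fromBlocks Z.toBlocks₁₁ Z.toBlocks₁₂ Z.toBlocks₂₁ Z.toBlocks₂₂ :=
    (Matrix.fromBlocks_toBlocks Z).symm
  have hY : Y = Matrix.fromBlocks (Y (Sum.inl 0) (Sum.inl 0) • (1 : Matrix (Fin 2) (Fin 2) ℂ))
      Y.toBlocks₁₂ Y.toBlocks₂₁ Y.toBlocks₂₂ := by
    conv_lhs => rw [← Matrix.fromBlocks_toBlocks Y]
    congr 1
    ext a b
    fin_cases a <;> fin_cases b
    · simp [Matrix.toBlocks₁₁]
    · simpa [Matrix.toBlocks₁₁] using h01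
    · simpa [Matrix.toBlocks₁₁] using h10
    · simp only [Matrix.toBlocks₁₁, Matrix.of_apply, Matrix.smul_apply, smul_eq_mul]
      show Y (Sum.inl 1) (Sum.inl 1) = Y (Sum.inl 0) (Sum.inl 0) * (1 : Matrix (Fin 2) (Fin 2) ℂ) 1 1
      rw [Matrix.one_apply_eq, mul_one]
      exact (sub_eq_zero.1 hy).symm
  have key := core_blocks Z.toBlocks₁₁ Z.toBlocks₁₂ Z.toBlocks₂₁ Z.toBlocks₂₂ μ d
    (by exact h.tr) (by rw [← hZ]; exact h.hH) h.hd (Y (Sum.inl 0) (Sum.inl 0))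
    Y.toBlocks₁₂ Y.toBlocks₂₁ Y.toBlocks₂₂
  rw [← hZ, ← hY] at key
  exact key

end nf

end Pool.Agent.helper75.LW
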