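import Mathlib
import Pool.Agent.helper75.LWNormal
import Pool.Agent.helper75.LWEigen

set_option autoImplicit false

open Matrix
open scoped ComplexConjugate InnerProductSpace

namespace Pool.Agent.helper75.LW

/-- the Hilbert-Schmidt inner product as a core -/
@[reducible] noncomputable def matCore (n : ℕ) :
    InnerProductSpace.Core ℂ (Matrix (Fin n) (Fin n) ℂ) where
  inner P Q := (Pᴴ * Q).trace
  conj_inner_symm P Q := by
    show conj ((Qᴴ * P).trace) = (Pᴴ * Q).trace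
    have : (Pᴴ * Q) = (Qᴴ * P)ᴴ := by
      rw [Matrix.conjTranspose_mul, Matrix.conjTranspose_conjTranspose]
    rw [this, Matrix.trace_conjTranspose]
    rfl
  re_inner_nonneg P := by
    show 0 ≤ ((Pᴴ * P).trace).re
    rw [← fn_eq_trace, Complex.ofReal_re]
    exact fn_nonneg P
  add_left P Q R := by
    show ((P + Q)ᴴ * R).trace = (Pᴴ * R).trace + (Qᴴ * R).trace
    rw [Matrix.conjTranspose_add, Matrix.add_mul, Matrix.trace_add]
  smul_left P Q c := by
    show ((c • P)ᴴ * Q).trace = conj c * (Pᴴ * Q).trace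
    rw [Matrix.conjTranspose_smul, Matrix.smul_mul, Matrix.trace_smul]
    rfl
  definite P hP := by
    change (Pᴴ * P).trace = 0 at hP
    rw [← fn_eq_trace] at hP
    have h0 : fn P = 0 := by exact_mod_cast hP
    have h1 : ∀ i, ∑ j, Complex.normSq (P i j) = 0 := by
      intro i
      exact (Finset.sum_eq_zero_iff_of_nonneg (fun _ _ =>
        Finset.sum_nonneg fun _ _ => Complex.normSq_nonneg _)).1 h0 i (Finset.mem_univ i)
    ext i j
    have := (Finset.sum_eq_zero_iff_of_nonneg (fun _ _ =>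
      Complex.normSq_nonneg _)).1 (h1 i) j (Finset.mem_univ j)
    simpa using this

@[reducible] noncomputable def matNormed (n : ℕ) : NormedAddCommGroup (Matrix (Fin n) (Fin n) ℂ) :=
  (matCore n).toNormedAddCommGroup

@[reducible] noncomputable def matInner (n : ℕ) :
    letI := matNormed n
    InnerProductSpace ℂ (Matrix (Fin n) (Fin n) ℂ) :=
  letI := matNormed n
  InnerProductSpace.ofCore (matCore n).toCore

section transport

variable {n : ℕ} {ι : Type*} [Fintype ι] [DecidableEq ι]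

/-- unitary change of coordinates -/
noncomputable def Phi (e : ι ≃ Fin n) (U : Matrix ι ι ℂ) :
    Matrix (Fin n) (Fin n) ℂ →ₗ[ℂ] Matrix ι ι ℂ where
  toFun Y := Uᴴ * Y.submatrix e e * U
  map_add' A B := by
    rw [Matrix.submatrix_add]
    simp only [Pi.add_apply, Matrix.mul_add, Matrix.add_mul]
  map_smul' c A := by
    rw [Matrix.submatrix_smul]
    simp only [Pi.smul_apply, Matrix.mul_smul, Matrix.smul_mul, RingHom.id_apply]

omit [DecidableEq ι] in
lemma Phi_apply (e : ι ≃ Fin n) (U : Matrix ι ι ℂ) (Y : Matrix (Fin n) (Fin n) ℂ) :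
    Phi e U Y = Uᴴ * Y.submatrix e e * U := rfl

lemma Phi_mul (e : ι ≃ Fin n) (U : Matrix ι ι ℂ) (hU : Uᴴ * U = 1)
    (A B : Matrix (Fin n) (Fin n) ℂ) : Phi e U (A * B) = Phi e U A * Phi e U B := by
  have hU' : U * Uᴴ = 1 := mul_eq_one_comm.1 hU
  rw [Phi_apply, Phi_apply, Phi_apply]
  have : Uᴴ * A.submatrix e e * U * (Uᴴ * B.submatrix e e * U)
      = Uᴴ * A.submatrix e e * (U * Uᴴ) * B.submatrix e e * U := by
    simp only [Matrix.mul_assoc]
  rw [this, hU', Matrix.mul_one, ← Matrix.submatrix_mul_equiv A B e e e]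
  simp only [Matrix.mul_assoc]

lemma fn_Phi (e : ι ≃ Fin n) (U : Matrix ι ι ℂ) (hU : Uᴴ * U = 1)
    (Y : Matrix (Fin n) (Fin n) ℂ) : fn (Phi e U Y) = fn Y := by
  have hU' : U * Uᴴ = 1 := mul_eq_one_comm.1 hU
  have h1 : ((fn (Phi e U Y) : ℝ) : ℂ) = ((fn (Y.submatrix e e) : ℝ) : ℂ) := by
    rw [fn_eq_trace, fn_eq_trace, Phi_apply]
    simp only [Matrix.conjTranspose_mul, Matrix.conjTranspose_conjTranspose]
    have : Uᴴ * ((Y.submatrix e e)ᴴ * U) * (Uᴴ * Y.submatrix e e * U)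
        = Uᴴ * ((Y.submatrix e e)ᴴ * (U * Uᴴ) * Y.submatrix e e) * U := by
      simp only [Matrix.mul_assoc]
    rw [this, hU', Matrix.mul_one, trace_conj_unitary _ _ hU]
  have h2 : fn (Y.submatrix e e) = fn Y := by
    unfold fn
    simp only [Matrix.submatrix_apply]
    rw [← Equiv.sum_comp e (fun i => ∑ j, Complex.normSq (Y i j))]
    refine Finset.sum_congr rfl fun i _ => ?_
    rw [← Equiv.sum_comp e (fun j => Complex.normSq (Y (e i) j))]
  rw [← h2]
  exact_mod_cast h1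

end transport

section main

/-- Core statement: two functionals and the two constants. -/
theorem exists_functionals (m : ℕ) (X : Matrix (Fin (2 + m)) (Fin (2 + m)) ℂ) :
    ∃ (L1 : Matrix (Fin (2 + m)) (Fin (2 + m)) ℂ →ₗ[ℂ] ℂ)
      (L3 : Matrix (Fin (2 + m)) (Fin (2 + m)) ℂ →ₗ[ℂ] (Fin 3 → ℂ)) (c1 c3 : ℝ),
      0 ≤ c1 ∧ 0 ≤ c3 ∧ c1 + c3 = 3 * fn X ∧
      (∀ Y, L1 Y = 0 → fn (X * Y - Y * X) ≤ c1 * fn Y) ∧
      (∀ Y, L3 Y = 0 → fn (X * Y - Y * X) ≤ c3 * fn Y) := by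
  obtain ⟨e⟩ : Nonempty (Fin 2 ⊕ Fin m ≃ Fin (2 + m)) := ⟨finSumFinEquiv⟩
  obtain ⟨U, hU, μ, d, hnf⟩ := exists_nf (X.submatrix e e)
  obtain ⟨Z, hZ⟩ : ∃ Z, Z = Uᴴ * X.submatrix e e * U
    - μ • (1 : Matrix (Fin 2 ⊕ Fin m) (Fin 2 ⊕ Fin m) ℂ) := ⟨_, rfl⟩
  rw [← hZ] at hnf
  have hPX : Phi e U X = Z + μ • (1 : Matrix (Fin 2 ⊕ Fin m) (Fin 2 ⊕ Fin m) ℂ) := by
    rw [hZ, Phi_apply]; abel
  have hcomm : ∀ Y, fn (X * Y - Y * X) = fn (Z * Phi e U Y - Phi e U Y * Z) := by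
    intro Y
    rw [← fn_Phi e U hU (X * Y - Y * X), map_sub, Phi_mul e U hU, Phi_mul e U hU, hPX]
    congr 1
    rw [Matrix.add_mul, Matrix.mul_add, Matrix.smul_mul, Matrix.mul_smul, Matrix.one_mul,
      Matrix.mul_one]
    abel
  obtain ⟨i0, hi0⟩ := hnf.core1
  have hd0 : ∀ i, 0 ≤ d i := by
    intro i
    rw [d_diag Z d hnf.hH i]
    exact add_nonneg (Finset.sum_nonneg fun _ _ => Complex.normSq_nonneg _)
      (Finset.sum_nonneg fun _ _ => Complex.normSq_nonneg _)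
  have hfX : fn (Z + μ • (1 : Matrix (Fin 2 ⊕ Fin m) (Fin 2 ⊕ Fin m) ℂ)) = fn X := by
    rw [← hPX, fn_Phi e U hU]
  let ent : (Fin 2 ⊕ Fin m) → (Fin 2 ⊕ Fin m) →
      (Matrix (Fin (2 + m)) (Fin (2 + m)) ℂ →ₗ[ℂ] ℂ) := fun i j =>
    (Matrix.entryLinearMap ℂ ℂ i j) ∘ₗ (Phi e U)
  have hent : ∀ i j Y, ent i j Y = Phi e U Y i j := fun i j Y => rfl
  refine ⟨ent (Sum.inl i0) (Sum.inl i0),
    LinearMap.pi ![ent (Sum.inl 0) (Sum.inl 1), ent (Sum.inl 1) (Sum.inl 0),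
      ent (Sum.inl 0) (Sum.inl 0) - ent (Sum.inl 1) (Sum.inl 1)],
    d (Sum.inl 0) + d (Sum.inl 1), 3 * fn X - (d (Sum.inl 0) + d (Sum.inl 1)),
    add_nonneg (hd0 _) (hd0 _), ?_, by ring, ?_, ?_⟩
  · have h1 := hnf.core2 μ 1 (by simp) (by simp) (by simp)
    rw [hfX, Matrix.mul_one, Matrix.one_mul, sub_self] at h1
    have h2 : fn (0 : Matrix (Fin 2 ⊕ Fin m) (Fin 2 ⊕ Fin m) ℂ) = 0 := by simp [fn]
    have h3 : 0 < fn (1 : Matrix (Fin 2 ⊕ Fin m) (Fin 2 ⊕ Fin m) ℂ) := by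
      have h4 : (1 : ℝ) ≤ fn (1 : Matrix (Fin 2 ⊕ Fin m) (Fin 2 ⊕ Fin m) ℂ) := by
        refine le_trans ?_ (row_le (1 : Matrix (Fin 2 ⊕ Fin m) (Fin 2 ⊕ Fin m) ℂ) (Sum.inl 0))
        refine le_trans ?_ (Finset.single_le_sum
          (f := fun k => Complex.normSq ((1 : Matrix (Fin 2 ⊕ Fin m) (Fin 2 ⊕ Fin m) ℂ) (Sum.inl 0) k))
          (fun _ _ => Complex.normSq_nonneg _) (Finset.mem_univ (Sum.inl 0)))
        simp
      linarith
    rw [h2] at h1
    exact (mul_nonneg_iff_of_pos_right h3).1 h1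
  · intro Y hY
    rw [hent] at hY
    rw [hcomm, ← fn_Phi e U hU Y]
    exact hi0 _ hY
  · intro Y hY
    have e0 := congrFun hY 0
    have e1 := congrFun hY 1
    have e2 := congrFun hY 2
    simp only [LinearMap.pi_apply, Matrix.cons_val_zero, Matrix.cons_val_one, Matrix.cons_val,
      Pi.zero_apply, LinearMap.sub_apply, hent] at e0 e1 e2
    rw [hcomm, ← fn_Phi e U hU Y, ← hfX]
    exact hnf.core2 μ _ e0 e1 e2

/-- Main theorem with a general norm. -/
theorem main (n : ℕ) (hn : 2 ≤ n) (X : Matrix (Fin n) (Fin n) ℂ)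
    (T : Matrix (Fin n) (Fin n) ℂ →ₗ[ℂ] Matrix (Fin n) (Fin n) ℂ)
    (hTa : ∀ Y, T Y = Xᴴ * (X * Y - Y * X) - (X * Y - Y * X) * Xᴴ) :
    ∃ lam : ℕ → ℝ, Antitone lam ∧ (∀ i, 0 ≤ lam i) ∧
      LinearMap.charpoly T
        = ∏ i ∈ Finset.range (n ^ 2), (Polynomial.X - Polynomial.C (lam i : ℂ)) ∧
      lam 0 + lam 2 ≤ 3 * fn X := by
  obtain ⟨m, rfl⟩ : ∃ m, n = 2 + m := ⟨n - 2, by omega⟩
  obtain ⟨L1, L3, c1, c3, hc1, hc3, hc, h1, h3⟩ := exists_functionals m X
  let _ := matNormed (2 + m)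
  let _ := matInner (2 + m)
  have hnorm : ∀ Y : Matrix (Fin (2 + m)) (Fin (2 + m)) ℂ, ‖Y‖ ^ 2 = fn Y := by
    intro Y
    have : ((‖Y‖ ^ 2 : ℝ) : ℂ) = ((fn Y : ℝ) : ℂ) := by
      rw [← inner_self_ofReal, fn_eq_trace]
      rfl
    exact_mod_cast this
  have hskew : Skew T (fun Y => (X * Y - Y * X)ᴴ) := by
    refine ⟨?_, ?_, ?_, ?_⟩
    · intro P Q
      rw [← Matrix.conjTranspose_add]
      congr 1
      rw [Matrix.mul_add, Matrix.add_mul]
      abel
    · intro c P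
      rw [Matrix.mul_smul, Matrix.smul_mul, ← smul_sub, Matrix.conjTranspose_smul]
      rfl
    · intro P
      rw [hTa]
      simp only [Matrix.conjTranspose_sub, Matrix.conjTranspose_mul,
        Matrix.conjTranspose_conjTranspose, Matrix.mul_sub, Matrix.sub_mul]
      abel
    · intro P Q
      show ((X * P - P * X)ᴴᴴ * Q).trace = - ((X * Q - Q * X)ᴴᴴ * P).trace
      rw [Matrix.conjTranspose_conjTranspose, Matrix.conjTranspose_conjTranspose, Matrix.sub_mul,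
        Matrix.sub_mul, Matrix.trace_sub, Matrix.trace_sub]
      have e1 : (P * X * Q).trace = (X * Q * P).trace := by
        rw [Matrix.mul_assoc, Matrix.trace_mul_comm]
      have e2 : (Q * X * P).trace = (X * P * Q).trace := by
        rw [Matrix.mul_assoc, Matrix.trace_mul_comm]
      rw [e1, e2]
      ring
  have hN : Module.finrank ℂ (Matrix (Fin (2 + m)) (Fin (2 + m)) ℂ) = (2 + m) ^ 2 := by
    rw [Module.finrank_matrix]
    simp [pow_two]
  have h2N : 2 < (2 + m) ^ 2 := by nlinarith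
  have h0N : 0 < (2 + m) ^ 2 := by positivity
  have b1 := hskew.first hN h0N L1 c1 hc1 (by
    intro v hv
    rw [hnorm, hnorm, fn_conjTranspose]
    exact h1 v hv)
  have b3 := hskew.third hN h2N L3 c3 hc3 (by
    intro v hv
    rw [hnorm, hnorm, fn_conjTranspose]
    exact h3 v hv)
  have hnn : ∀ i, 0 ≤ hskew.isSymmetric.eigenvalues hN i := by
    intro i
    have h4 := hskew.norm_J_sq_of_eigen (hskew.isSymmetric.apply_eigenvectorBasis hN i)
    rw [(hskew.isSymmetric.eigenvectorBasis hN).norm_eq_one i] at h4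
    have h5 := sq_nonneg ‖(fun Y => (X * Y - Y * X)ᴴ)
      (hskew.isSymmetric.eigenvectorBasis hN i)‖
    rw [h4] at h5
    simpa using h5
  refine ⟨fun i => if h : i < (2 + m) ^ 2 then hskew.isSymmetric.eigenvalues hN ⟨i, h⟩ else 0,
    ?_, ?_, ?_, ?_⟩
  · intro i j hij
    simp only
    split_ifs with hj hi hi
    · exact hskew.isSymmetric.eigenvalues_antitone hN (by simpa using hij)
    · omega
    · exact hnn _
    · exact le_rfl
  · intro i
    simp only
    split_ifs with hi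
    · exact hnn _
    · exact le_rfl
  · rw [hskew.isSymmetric.charpoly_eq hN, Finset.prod_range]
    refine Finset.prod_congr rfl fun i _ => ?_
    simp only
    rw [dif_pos i.2]
    rfl
  · simp only
    rw [dif_pos h0N, dif_pos h2N, ← hc]
    exact add_le_add b1 b3

end main

end Pool.Agent.helper75.LW
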